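import Pool.Agent.Work.MP_1ce445_top.Interface

/-! Block RAN of THEOREM TOP for MP_1ce445_co: the random upper bound for `gammaT`. -/

namespace Pool.Agent.Work.MP_1ce445_top

open Finset Pool.Agent.Work.MP_1ce445_co_56 Pool.Agent.Work.MP_1ce445_lin

theorem RAN_card {V : Type} [Fintype V] [DecidableEq V] (m : ℕ) (N : Finset V) :
    ((univ.filter (fun f : V → Fin (m + 1) => ∀ w ∈ N, f w ≠ 0)).card : ℝ) =
      ((m : ℝ) + 1) ^ (Fintype.card V) * (1 - 1 / ((m : ℝ) + 1)) ^ N.card := by
  have h1 : (univ.filter (fun f : V → Fin (m + 1) => ∀ w ∈ N, f w ≠ 0)) =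
      Fintype.piFinset (fun w => if w ∈ N then ({0}ᶜ : Finset (Fin (m + 1))) else univ) := by
    ext f
    simp only [mem_filter, mem_univ, true_and, Fintype.mem_piFinset]
    constructor
    · intro h w
      split_ifs with hw
      · simpa using h w hw
      · exact mem_univ _
    · intro h w hw
      have := h w
      rw [if_pos hw] at this
      simpa using this
  have hm : ((m : ℝ) + 1) ≠ 0 := by positivity
  have h2 : ∀ w : V, (((if w ∈ N then ({0}ᶜ : Finset (Fin (m + 1))) else univ).card : ℕ) : ℝ) =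
      ((m : ℝ) + 1) * (if w ∈ N then (1 - 1 / ((m : ℝ) + 1)) else 1) := by
    intro w
    split_ifs with hw
    · rw [card_compl]
      simp only [Fintype.card_fin, card_singleton, Nat.add_sub_cancel]
      field_simp
      ring
    · simp
  rw [h1, Fintype.card_piFinset]
  push_cast
  rw [prod_congr rfl (fun w _ => h2 w), prod_mul_distrib, prod_ite, prod_const_one, mul_one,
    prod_const, prod_const, card_univ]
  congr 3
  ext w
  simp

theorem RAN_card0 {V : Type} [Fintype V] [DecidableEq V] (m : ℕ) (w : V) :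
    ((univ.filter (fun f : V → Fin (m + 1) => f w = 0)).card : ℝ) =
      ((m : ℝ) + 1) ^ (Fintype.card V) * (1 / ((m : ℝ) + 1)) := by
  have h1 := RAN_card (V := V) m {w}
  have h2 := card_filter_add_card_filter_not (s := (univ : Finset (V → Fin (m + 1))))
    (fun f : V → Fin (m + 1) => f w = 0)
  have h3 : (univ.filter (fun f : V → Fin (m + 1) => ∀ w' ∈ ({w} : Finset V), f w' ≠ 0)) =
      univ.filter (fun f : V → Fin (m + 1) => ¬ f w = 0) := by
    ext f; simp
  rw [h3] at h1
  have h4 : ((univ : Finset (V → Fin (m + 1))).card : ℝ) = ((m : ℝ) + 1) ^ (Fintype.card V) := by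
    rw [card_univ, Fintype.card_fun, Fintype.card_fin]
    push_cast
    rfl
  have h5 : ((univ.filter (fun f : V → Fin (m + 1) => f w = 0)).card : ℝ) +
      ((univ.filter (fun f : V → Fin (m + 1) => ¬ f w = 0)).card : ℝ) =
      ((m : ℝ) + 1) ^ (Fintype.card V) := by
    rw [← h4, ← h2]
    push_cast
    rfl
  rw [h1, card_singleton, pow_one] at h5
  linear_combination h5

theorem stmt_RAN : Stmt_RAN := by
  classical
  intro V _ _ G q hq hG
  obtain ⟨m, rfl⟩ : ∃ m, q = m + 1 := ⟨q - 1, by omega⟩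
  have hm : (0 : ℝ) < (m : ℝ) + 1 := by positivity
  have hpow : (0 : ℝ) < ((m : ℝ) + 1) ^ (Fintype.card V) := by positivity
  -- the bound for one function
  have h1 : ∀ f : V → Fin (m + 1), (gammaT G : ℝ) ≤
      ∑ v, ((if f v = 0 then (1 : ℝ) else 0) +
        (if ∀ w ∈ univ.filter (fun w => G.Adj v w), f w ≠ 0 then (1 : ℝ) else 0)) := by
    intro f
    have h := gammaT_le_add hG (univ.filter (fun w => f w = 0))
    have e1 : (univ.filter (fun v => ∀ z ∈ univ.filter (fun w => f w = 0), ¬ G.Adj v z)) =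
        univ.filter (fun v => ∀ w ∈ univ.filter (fun w => G.Adj v w), f w ≠ 0) := by
      ext v
      simp only [mem_filter, mem_univ, true_and]
      constructor
      · intro h w hw h0
        exact h w h0 hw
      · intro h z hz hv
        exact h z hv hz
    rw [e1] at h
    rw [sum_add_distrib, sum_boole, sum_boole]
    exact_mod_cast h
  have h2 : ∑ _f : V → Fin (m + 1), (gammaT G : ℝ) ≤
      ∑ f : V → Fin (m + 1), ∑ v, ((if f v = 0 then (1 : ℝ) else 0) +
        (if ∀ w ∈ univ.filter (fun w => G.Adj v w), f w ≠ 0 then (1 : ℝ) else 0)) :=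
    sum_le_sum fun f _ => h1 f
  rw [sum_comm] at h2
  have h3 : ∀ v : V, ∑ f : V → Fin (m + 1), ((if f v = 0 then (1 : ℝ) else 0) +
        (if ∀ w ∈ univ.filter (fun w => G.Adj v w), f w ≠ 0 then (1 : ℝ) else 0)) =
      ((m : ℝ) + 1) ^ (Fintype.card V) *
        (1 / ((m : ℝ) + 1) + (1 - 1 / ((m : ℝ) + 1)) ^ (dg G v)) := by
    intro v
    rw [sum_add_distrib, sum_boole, sum_boole, RAN_card0, RAN_card, mul_add]
    rfl
  rw [sum_congr rfl (fun v _ => h3 v), ← mul_sum, sum_const, card_univ, Fintype.card_fun,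
    Fintype.card_fin, nsmul_eq_mul] at h2
  push_cast at h2 ⊢
  exact le_of_mul_le_mul_left h2 hpow

end Pool.Agent.Work.MP_1ce445_top
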