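import Pool.Agent.Work.MP_1ce445_top.Interface

/-! # Block TAE: the assembly for even order -/

set_option autoImplicit false

namespace Pool.Agent.Work.MP_1ce445_top

open Finset Pool.Agent.Work.MP_1ce445_co_56 Pool.Agent.Work.MP_1ce445_lin

/-- The factors. -/
def TAE_g {V I : Type} {m : ℕ} {μ : I → V → V} {W : V → V → Prop} {cl : V → Fin m}
    {bg : Fin m → I} (h : Td μ W cl bg) (i : I) : SimpleGraph V :=
  { Adj := fun v w => μ i v = w ∨ (W v w ∧ bg (cl v) = i)
    symm := ⟨fun v w hvw => by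
      rcases hvw with he | ⟨hw, hb⟩
      · exact Or.inl (by rw [← he]; exact h.inv i v)
      · exact Or.inr ⟨h.w_symm v w hw, by rw [← h.w_cl v w hw]; exact hb⟩⟩
    loopless := ⟨fun v hv => by
      rcases hv with he | ⟨hw, _⟩
      · exact h.ne i v he
      · exact h.w_irr v hw⟩ }

theorem TAE_adj {V I : Type} {m : ℕ} {μ : I → V → V} {W : V → V → Prop} {cl : V → Fin m}
    {bg : Fin m → I} (h : Td μ W cl bg) (i : I) (v w : V) :
    (TAE_g h i).Adj v w ↔ μ i v = w ∨ (W v w ∧ bg (cl v) = i) := Iff.rfl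

theorem TAE_min {V I : Type} {m : ℕ} {μ : I → V → V} {W : V → V → Prop} {cl : V → Fin m}
    {bg : Fin m → I} (h : Td μ W cl bg) (i : I) (v : V) : ∃ w, (TAE_g h i).Adj v w :=
  ⟨μ i v, (TAE_adj h i v _).2 (Or.inl rfl)⟩

theorem TAE_fac {V I : Type} {m : ℕ} {μ : I → V → V} {W : V → V → Prop} {cl : V → Fin m}
    {bg : Fin m → I} (h : Td μ W cl bg) : IsFactorization (TAE_g h) := by
  apply IsFactorization.of_adj
  · intro i j v w h1 h2
    rw [TAE_adj] at h1 h2
    rcases h1 with e1 | ⟨w1, b1⟩ <;> rcases h2 with e2 | ⟨w2, b2⟩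
    · exact h.dis i j v (e1.trans e2.symm)
    · exact absurd e1 (h.w_mu v w i w2)
    · exact absurd e2 (h.w_mu v w j w1)
    · exact b1.symm.trans b2
  · intro v w hvw
    rcases h.cov v w hvw with hw | ⟨i, hi⟩
    · exact ⟨bg (cl v), (TAE_adj h _ v w).2 (Or.inr ⟨hw, rfl⟩)⟩
    · exact ⟨i, (TAE_adj h i v w).2 (Or.inl hi)⟩
  · exact TAE_min h

theorem TAE_inj {V I : Type} {m : ℕ} {μ : I → V → V} {W : V → V → Prop} {cl : V → Fin m}
    {bg : Fin m → I} (h : Td μ W cl bg) (i : I) : Function.Injective (μ i) := by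
  intro v w hvw
  have h1 := congrArg (μ i) hvw
  rwa [h.inv, h.inv] at h1

theorem TAE_small {V I : Type} [Fintype V] [DecidableEq V] {m : ℕ} {μ : I → V → V}
    {W : V → V → Prop} {cl : V → Fin m} {bg : Fin m → I} (h : Td μ W cl bg) (i : I)
    (hi : ∀ t, bg t ≠ i) : Fintype.card V ≤ gammaT (TAE_g h i) := by
  refine card_le_gammaT (TAE_min h i) (fun v => v) (fun v => μ i v) (TAE_inj h i) ?_
  intro x w hw
  rcases (TAE_adj h i x w).1 hw with e | ⟨_, hb⟩
  · exact e.symm
  · exact absurd hb (hi _)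

theorem TAE_big {V I : Type} [Fintype V] [DecidableEq V] {m : ℕ} {μ : I → V → V}
    {W : V → V → Prop} {cl : V → Fin m} {bg : Fin m → I} (h : Td μ W cl bg) (t : Fin m) (s : ℕ)
    (hs : (univ.filter (fun v => cl v = t)).card ≤ s) :
    Fintype.card V - s ≤ gammaT (TAE_g h (bg t)) := by
  have h1 := card_le_gammaT (TAE_min h (bg t)) (α := {v : V // ¬ cl v = t})
    (fun v => v.1) (fun v => μ (bg t) v.1) (fun v w hvw => Subtype.ext (TAE_inj h _ hvw)) (by
      intro x w hw
      rcases (TAE_adj h (bg t) x.1 w).1 hw with e | ⟨_, hb⟩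
      · exact e.symm
      · exact absurd (h.bg_inj hb) x.2)
  rw [Fintype.card_subtype_compl, Fintype.card_subtype] at h1
  omega

theorem stmt_TAE : Stmt_TAE := by
  intro V I _ _ m μ W cl bg s h hs
  classical
  have h1 := le_P (V := V) (ι := I) (n := Fintype.card V) (k := Fintype.card I) rfl rfl
    (TAE_fac h)
  refine le_trans ?_ h1
  obtain ⟨R, hR⟩ : ∃ R : Finset I, R = univ.image bg := ⟨_, rfl⟩
  have hRc : R.card = m := by
    rw [hR, card_image_of_injective _ h.bg_inj, card_univ, Fintype.card_fin]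
  have h2 : ∏ i : I, (if i ∈ R then (Fintype.card V - s) else Fintype.card V) =
      Fintype.card V ^ (Fintype.card I - m) * (Fintype.card V - s) ^ m := by
    rw [prod_ite, prod_const, prod_const, filter_univ_mem, hRc, mul_comm]
    congr 2
    have e : univ.filter (fun i => i ∉ R) = Rᶜ := by
      ext i
      simp
    rw [e, card_compl, hRc]
  rw [← h2]
  refine Finset.prod_le_prod' fun i _ => ?_
  by_cases hi : i ∈ R
  · rw [if_pos hi]
    rw [hR, mem_image] at hi
    obtain ⟨t, -, rfl⟩ := hi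
    exact TAE_big h t s (hs t)
  · rw [if_neg hi]
    refine TAE_small h i fun t ht => hi ?_
    rw [hR, mem_image]
    exact ⟨t, mem_univ t, ht⟩

end Pool.Agent.Work.MP_1ce445_top
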