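import Pool.Agent.Work.MP_1ce445_top.Interface

/-!
Block TAO: assembly of the factorization of a complete graph of odd order: a vertex is deleted and its partners get
repair pairs.
-/

namespace Pool.Agent.Work.MP_1ce445_top

open Finset Pool.Agent.Work.MP_1ce445_co_56 Pool.Agent.Work.MP_1ce445_lin

/-- Unique neighbours except at one vertex (the lemma of the block GAM). -/
lemma TAO_sub_one {V : Type*} [Fintype V] [DecidableEq V] {G : SimpleGraph V}
    (hm : ∀ v, ∃ w, G.Adj v w) (x0 v : V)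
    (hb : ∀ x y y', x ≠ x0 → G.Adj x y → G.Adj x y' → y = y')
    (hc : ∀ y y', y ≠ v → y' ≠ v → G.Adj x0 y → G.Adj x0 y' → y = y') :
    Fintype.card V ≤ gammaT G + 1 := by
  obtain ⟨S, hS, hcard⟩ := exists_tds hm
  choose f hf using hm
  set W : Finset V := univ.filter (fun x => x ≠ x0 ∧ x ≠ v) with hW
  have h1 : W.image f ⊆ S := by
    intro y hy
    obtain ⟨x, hx, rfl⟩ := mem_image.1 hy
    obtain ⟨-, hx0, -⟩ := mem_filter.1 hx
    obtain ⟨w, hw, haw⟩ := hS x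
    rw [hb x (f x) w hx0 (hf x) haw]
    exact hw
  have h2 : Set.InjOn f (W : Set V) := by
    intro x hx x' hx' hxx
    obtain ⟨-, hx0, hxv⟩ := mem_filter.1 (mem_coe.1 hx)
    obtain ⟨-, hx0', hxv'⟩ := mem_filter.1 (mem_coe.1 hx')
    have h3 : G.Adj (f x) x := (hf x).symm
    have h4 : G.Adj (f x) x' := by
      rw [hxx]
      exact (hf x').symm
    by_cases h5 : f x = x0
    · rw [h5] at h3 h4
      exact hc _ _ hxv hxv' h3 h4
    · exact hb _ _ _ h5 h3 h4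
  obtain ⟨y, hyS, hy⟩ := hS x0
  have h3 : y ∉ W.image f := by
    intro hyW
    obtain ⟨x, hx, hxy⟩ := mem_image.1 hyW
    obtain ⟨-, hx0, -⟩ := mem_filter.1 hx
    have h4 : G.Adj y x := by
      rw [← hxy]
      exact (hf x).symm
    exact hx0 (hb y x x0 hy.ne' h4 hy.symm)
  have h4 : (insert y (W.image f)).card ≤ S.card :=
    card_le_card (insert_subset hyS h1)
  rw [card_insert_of_notMem h3, card_image_of_injOn h2, hcard] at h4
  have h5 : (univ : Finset V) ⊆ W ∪ {x0, v} := by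
    intro x hx
    rw [mem_union, mem_insert, mem_singleton]
    by_cases h5 : x = x0
    · exact Or.inr (Or.inl h5)
    by_cases h6 : x = v
    · exact Or.inr (Or.inr h6)
    · exact Or.inl (mem_filter.2 ⟨hx, h5, h6⟩)
  have h6 : ({x0, v} : Finset V).card ≤ 2 := card_le_two
  have h7 := (card_le_card h5).trans (card_union_le _ _)
  rw [card_univ] at h7
  omega

section rel

variable {V I : Type} {m : ℕ}

/-- `{v, w}` is the repair pair of `i`. -/
def TAO_rp (μ : I → V → V) (y0 : V) (ρ : V → V) (i : I) (v w : V) : Prop :=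
  (v = μ i y0 ∧ w = ρ (μ i y0)) ∨ (w = μ i y0 ∧ v = ρ (μ i y0))

/-- The adjacency of the factor `i`. -/
def TAO_rel (μ : I → V → V) (W : V → V → Prop) (cl : V → Fin m) (bg : Fin m → I) (y0 : V)
    (ρ : V → V) (i : I) (v w : V) : Prop :=
  μ i v = w ∨ TAO_rp μ y0 ρ i v w ∨ (W v w ∧ (∀ j, ¬ TAO_rp μ y0 ρ j v w) ∧ bg (cl v) = i)

variable {μ : I → V → V} {W : V → V → Prop} {cl : V → Fin m} {bg : Fin m → I} {y0 : V}
  {ρ : V → V}

lemma TAO_rp_symm {i : I} {v w : V} (h : TAO_rp μ y0 ρ i v w) : TAO_rp μ y0 ρ i w v :=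
  Or.symm h

lemma TAO_rp_W (h1 : Td μ W cl bg) (h2 : Rp μ W y0 ρ) {i : I} {v w : V}
    (h : TAO_rp μ y0 ρ i v w) : W v w := by
  rcases h with ⟨ha, hb⟩ | ⟨ha, hb⟩
  · rw [ha, hb]
    exact h2.w i
  · rw [ha, hb]
    exact h1.w_symm _ _ (h2.w i)

lemma TAO_rp_unique (h1 : Td μ W cl bg) (h2 : Rp μ W y0 ρ) {i j : I} {v w : V}
    (h : TAO_rp μ y0 ρ i v w) (h' : TAO_rp μ y0 ρ j v w) : i = j := by
  rcases h with ⟨ha, hb⟩ | ⟨ha, hb⟩ <;> rcases h' with ⟨ha', hb'⟩ | ⟨ha', hb'⟩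
  · exact h1.dis i j y0 (ha.symm.trans ha')
  · by_contra hij
    exact h2.dis i j hij ⟨hb.symm.trans ha', hb'.symm.trans ha⟩
  · by_contra hij
    exact h2.dis i j hij ⟨hb.symm.trans ha', hb'.symm.trans ha⟩
  · exact h1.dis i j y0 (ha.symm.trans ha')

lemma TAO_rel_symm (h1 : Td μ W cl bg) {i : I} {v w : V}
    (h : TAO_rel μ W cl bg y0 ρ i v w) : TAO_rel μ W cl bg y0 ρ i w v := by
  rcases h with h | h | ⟨h, h', h''⟩
  · left
    rw [← h]
    exact h1.inv i v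
  · exact Or.inr (Or.inl (TAO_rp_symm h))
  · refine Or.inr (Or.inr ⟨h1.w_symm _ _ h, fun j hj => h' j (TAO_rp_symm hj), ?_⟩)
    rw [← h1.w_cl _ _ h]
    exact h''

lemma TAO_rel_irr (h1 : Td μ W cl bg) (h2 : Rp μ W y0 ρ) {i : I} {v : V}
    (h : TAO_rel μ W cl bg y0 ρ i v v) : False := by
  rcases h with h | h | ⟨h, -, -⟩
  · exact h1.ne i v h
  · exact h1.w_irr v (TAO_rp_W h1 h2 h)
  · exact h1.w_irr v h

lemma TAO_rel_unique (h1 : Td μ W cl bg) (h2 : Rp μ W y0 ρ) {i j : I} {v w : V}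
    (h : TAO_rel μ W cl bg y0 ρ i v w) (h' : TAO_rel μ W cl bg y0 ρ j v w) : i = j := by
  rcases h with h | h | ⟨h, hn, hi⟩ <;> rcases h' with h' | h' | ⟨h', hn', hj⟩
  · exact h1.dis i j v (h.trans h'.symm)
  · exact absurd h (h1.w_mu v w i (TAO_rp_W h1 h2 h'))
  · exact absurd h (h1.w_mu v w i h')
  · exact absurd h' (h1.w_mu v w j (TAO_rp_W h1 h2 h))
  · exact TAO_rp_unique h1 h2 h h'
  · exact absurd h (hn' i)
  · exact absurd h' (h1.w_mu v w j h)
  · exact absurd h' (hn j)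
  · rw [← hi, ← hj]

lemma TAO_rel_cover (h1 : Td μ W cl bg) {v w : V} (hvw : v ≠ w) :
    ∃ i, TAO_rel μ W cl bg y0 ρ i v w := by
  rcases h1.cov v w hvw with h | ⟨i, h⟩
  · by_cases h' : ∃ j, TAO_rp μ y0 ρ j v w
    · obtain ⟨j, hj⟩ := h'
      exact ⟨j, Or.inr (Or.inl hj)⟩
    · exact ⟨bg (cl v), Or.inr (Or.inr ⟨h, fun j hj => h' ⟨j, hj⟩, rfl⟩)⟩
  · exact ⟨i, Or.inl h⟩

lemma TAO_mu_ne (h1 : Td μ W cl bg) {i : I} {v : V} (hv : v ≠ μ i y0) : μ i v ≠ y0 := by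
  intro h
  apply hv
  rw [← h]
  exact (h1.inv i v).symm

lemma TAO_rel_deg (h1 : Td μ W cl bg) (h2 : Rp μ W y0 ρ) (i : I) (v : V) :
    ∃ w, w ≠ y0 ∧ TAO_rel μ W cl bg y0 ρ i v w := by
  by_cases hv : v = μ i y0
  · exact ⟨ρ (μ i y0), h2.ne i, Or.inr (Or.inl (Or.inl ⟨hv, rfl⟩))⟩
  · exact ⟨μ i v, TAO_mu_ne h1 hv, Or.inl rfl⟩

/-- The factor `i`. -/
def TAO_G (h1 : Td μ W cl bg) (h2 : Rp μ W y0 ρ) (i : I) : SimpleGraph {v : V // v ≠ y0} where
  Adj v w := TAO_rel μ W cl bg y0 ρ i v.1 w.1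
  symm := ⟨fun _ _ h => TAO_rel_symm h1 h⟩
  loopless := ⟨fun _ h => TAO_rel_irr h1 h2 h⟩

lemma TAO_deg (h1 : Td μ W cl bg) (h2 : Rp μ W y0 ρ) (i : I) (v : {v : V // v ≠ y0}) :
    ∃ w, (TAO_G h1 h2 i).Adj v w := by
  obtain ⟨w, hw, h⟩ := TAO_rel_deg h1 h2 i v.1
  exact ⟨⟨w, hw⟩, h⟩

lemma TAO_fact (h1 : Td μ W cl bg) (h2 : Rp μ W y0 ρ) : IsFactorization (TAO_G h1 h2) := by
  refine IsFactorization.of_adj ?_ ?_ ?_
  · intro i j v w h h'
    exact TAO_rel_unique h1 h2 h h'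
  · intro v w hvw
    obtain ⟨i, hi⟩ := TAO_rel_cover (y0 := y0) (ρ := ρ) h1 (v := v.1) (w := w.1)
      (fun h => hvw (Subtype.ext h))
    exact ⟨i, hi⟩
  · exact TAO_deg h1 h2

lemma TAO_small [Fintype V] [DecidableEq V] (h1 : Td μ W cl bg) (h2 : Rp μ W y0 ρ) (i : I)
    (hi : ∀ t, bg t ≠ i) :
    Fintype.card {v : V // v ≠ y0} ≤ gammaT (TAO_G h1 h2 i) + 1 := by
  have hne : ρ (μ i y0) ≠ μ i y0 := by
    intro h
    have h3 := h2.w i
    rw [h] at h3
    exact h1.w_irr _ h3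
  refine TAO_sub_one (TAO_deg h1 h2 i) ⟨ρ (μ i y0), h2.ne i⟩ ⟨μ i y0, h1.ne i y0⟩ ?_ ?_
  · rintro ⟨x, hx⟩ ⟨y, hy⟩ ⟨y', hy'⟩ hxx h h'
    have hxx' : x ≠ ρ (μ i y0) := fun h => hxx (Subtype.ext h)
    apply Subtype.ext
    change y = y'
    have key : ∀ z, z ≠ y0 → TAO_rel μ W cl bg y0 ρ i x z →
        z = if x = μ i y0 then ρ (μ i y0) else μ i x := by
      intro z hz h3
      rcases h3 with h3 | h3 | ⟨-, -, h3⟩
      · by_cases hx' : x = μ i y0
        · exfalso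
          apply hz
          rw [← h3, hx']
          exact h1.inv i y0
        · rw [if_neg hx']
          exact h3.symm
      · rcases h3 with ⟨h3, h4⟩ | ⟨h3, h4⟩
        · rw [if_pos h3]
          exact h4
        · exact absurd h4 hxx'
      · exact absurd h3 (hi _)
    rw [key y hy h, key y' hy' h']
  · rintro ⟨y, hy⟩ ⟨y', hy'⟩ hyv hyv' h h'
    have hyv1 : y ≠ μ i y0 := fun h => hyv (Subtype.ext h)
    have hyv2 : y' ≠ μ i y0 := fun h => hyv' (Subtype.ext h)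
    apply Subtype.ext
    change y = y'
    have key : ∀ z, z ≠ μ i y0 → TAO_rel μ W cl bg y0 ρ i (ρ (μ i y0)) z →
        z = μ i (ρ (μ i y0)) := by
      intro z hz h3
      rcases h3 with h3 | h3 | ⟨-, -, h3⟩
      · exact h3.symm
      · rcases h3 with ⟨h3, h4⟩ | ⟨h3, h4⟩
        · exact absurd h3 hne
        · exact absurd h3 hz
      · exact absurd h3 (hi _)
    rw [key y hyv1 h, key y' hyv2 h']

lemma TAO_big [Fintype V] [DecidableEq V] (h1 : Td μ W cl bg) (h2 : Rp μ W y0 ρ) (t : Fin m)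
    (s : ℕ) (hs : (univ.filter (fun v => cl v = t)).card ≤ s) :
    Fintype.card V ≤ gammaT (TAO_G h1 h2 (bg t)) + (s + 3) := by
  classical
  set α := {v : V // cl v ≠ t ∧ v ≠ μ (bg t) y0 ∧ v ≠ ρ (μ (bg t) y0) ∧ v ≠ y0} with hα
  have h3 : Fintype.card α ≤ gammaT (TAO_G h1 h2 (bg t)) := by
    refine card_le_gammaT (TAO_deg h1 h2 (bg t)) (fun x : α => ⟨x.1, x.2.2.2.2⟩)
      (fun x : α => ⟨μ (bg t) x.1, TAO_mu_ne h1 x.2.2.1⟩) ?_ ?_
    · intro x x' hxx
      have h4 : μ (bg t) x.1 = μ (bg t) x'.1 := congrArg Subtype.val hxx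
      apply Subtype.ext
      rw [← h1.inv (bg t) x.1, h4]
      exact h1.inv (bg t) x'.1
    · rintro ⟨x, hx1, hx2, hx3, hx4⟩ ⟨w, hw⟩ h
      apply Subtype.ext
      change w = μ (bg t) x
      have h' : TAO_rel μ W cl bg y0 ρ (bg t) x w := h
      rcases h' with h' | h' | ⟨-, -, h'⟩
      · exact h'.symm
      · rcases h' with ⟨h', -⟩ | ⟨-, h'⟩
        · exact absurd h' hx2
        · exact absurd h' hx3
      · exact absurd (h1.bg_inj h') hx1
  have h4 : Fintype.card α =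
      (univ.filter (fun v : V =>
        cl v ≠ t ∧ v ≠ μ (bg t) y0 ∧ v ≠ ρ (μ (bg t) y0) ∧ v ≠ y0)).card :=
    Fintype.card_subtype _
  have h5 : (univ : Finset V) ⊆
      (univ.filter (fun v : V =>
        cl v ≠ t ∧ v ≠ μ (bg t) y0 ∧ v ≠ ρ (μ (bg t) y0) ∧ v ≠ y0)) ∪
      ((univ.filter (fun v => cl v = t)) ∪ {μ (bg t) y0, ρ (μ (bg t) y0), y0}) := by
    intro v _
    simp only [mem_union, mem_filter, mem_univ, true_and, mem_insert, mem_singleton]
    tauto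
  have h6 : ({μ (bg t) y0, ρ (μ (bg t) y0), y0} : Finset V).card ≤ 3 := card_le_three
  have h7 := card_le_card h5
  have h8 := card_union_le (univ.filter (fun v : V =>
        cl v ≠ t ∧ v ≠ μ (bg t) y0 ∧ v ≠ ρ (μ (bg t) y0) ∧ v ≠ y0))
      ((univ.filter (fun v => cl v = t)) ∪ {μ (bg t) y0, ρ (μ (bg t) y0), y0})
  have h9 := card_union_le (univ.filter (fun v => cl v = t))
    ({μ (bg t) y0, ρ (μ (bg t) y0), y0} : Finset V)
  rw [card_univ] at h7
  omega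

end rel

theorem stmt_TAO : Stmt_TAO := by
  classical
  intro V I _ _ m μ W cl bg s y0 ρ h1 h2 hs
  have hV : Fintype.card {v : V // v ≠ y0} = Fintype.card V - 1 := by
    rw [Fintype.card_subtype, filter_ne', card_erase_of_mem (mem_univ _), card_univ]
  refine le_trans ?_ (le_P hV rfl (TAO_fact h1 h2))
  have h3 : ∏ i, gammaT (TAO_G h1 h2 i) =
      (∏ i ∈ univ.image bg, gammaT (TAO_G h1 h2 i)) *
        ∏ i ∈ (univ.image bg)ᶜ, gammaT (TAO_G h1 h2 i) :=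
    (prod_mul_prod_compl _ _).symm
  have h4 : (univ.image bg).card = m := by
    rw [card_image_of_injective _ h1.bg_inj, card_univ, Fintype.card_fin]
  have h5 : ((univ.image bg)ᶜ).card = Fintype.card I - m := by
    rw [card_compl, h4]
  rw [h3, mul_comm]
  refine Nat.mul_le_mul ?_ ?_
  · have h6 : (Fintype.card V - (s + 3)) ^ (univ.image bg).card =
        ∏ _i ∈ univ.image bg, (Fintype.card V - (s + 3)) := by
      rw [prod_const]
    rw [h4] at h6
    rw [h6]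
    apply prod_le_prod'
    intro i hi
    obtain ⟨t, -, rfl⟩ := mem_image.1 hi
    have h7 := TAO_big h1 h2 t s (by convert hs t)
    omega
  · have h6 : (Fintype.card V - 2) ^ ((univ.image bg)ᶜ).card =
        ∏ _i ∈ (univ.image bg)ᶜ, (Fintype.card V - 2) := by
      rw [prod_const]
    rw [h5] at h6
    rw [h6]
    apply prod_le_prod'
    intro i hi
    have h7 := TAO_small h1 h2 i (fun t ht => by
      rw [mem_compl] at hi
      exact hi (mem_image.2 ⟨t, mem_univ _, ht⟩))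
    rw [hV] at h7
    omega

end Pool.Agent.Work.MP_1ce445_top

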