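import Pool.Agent.Work.MP_1ce445_top.Interface

/-!
# Block TCL (MP_1ce445_co, theorem TOP): clusters and cross matchings (helper88)

The clusters are the residue classes modulo `m` (sizes `h / m` or `h / m + 1`).
-/

namespace Pool.Agent.Work.MP_1ce445_top

open Finset Pool.Agent.Work.MP_1ce445_co_56 Pool.Agent.Work.MP_1ce445_lin

/-- `e` cyclic shifts of a set with at least `e + 1` elements -/
theorem TCL_shift (C : Type) [Fintype C] (e : ℕ) (h : e + 1 ≤ Fintype.card C) :
    ∃ F : Fin e → (C ≃ C), (∀ t x, F t x ≠ x) ∧ ∀ t t' x, F t x = F t' x → t = t' := by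
  classical
  obtain ⟨s, hs⟩ : ∃ s, s = Fintype.card C := ⟨_, rfl⟩
  rw [← hs] at h
  haveI : NeZero s := ⟨by omega⟩
  have g : C ≃ ZMod s := Fintype.equivOfCardEq (by rw [ZMod.card, hs])
  refine ⟨fun t => (g.trans (Equiv.addRight (((t.val + 1 : ℕ) : ZMod s)))).trans g.symm, ?_, ?_⟩
  · intro t x hx
    have h1 : g x + (((t.val + 1 : ℕ) : ZMod s)) = g x := by
      have h0 := congrArg g hx
      simp only [Equiv.trans_apply, Equiv.coe_addRight, Equiv.apply_symm_apply] at h0
      exact h0
    have h2 : (((t.val + 1 : ℕ) : ZMod s)) = 0 := by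
      simpa only [add_eq_left] using h1
    rw [ZMod.natCast_eq_zero_iff] at h2
    have h3 := Nat.le_of_dvd (by omega) h2
    have h4 := t.isLt
    omega
  · intro t t' x hx
    have h1 : g x + (((t.val + 1 : ℕ) : ZMod s)) = g x + (((t'.val + 1 : ℕ) : ZMod s)) := by
      have h0 := congrArg g hx
      simp only [Equiv.trans_apply, Equiv.coe_addRight, Equiv.apply_symm_apply] at h0
      exact h0
    have h2 : (((t.val + 1 : ℕ) : ZMod s)) = (((t'.val + 1 : ℕ) : ZMod s)) := add_left_cancel h1
    rw [ZMod.natCast_eq_natCast_iff'] at h2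
    have h3 := t.isLt
    have h4 := t'.isLt
    rw [Nat.mod_eq_of_lt (by omega), Nat.mod_eq_of_lt (by omega)] at h2
    apply Fin.ext
    omega

/-- shifts of all clusters at the same time -/
theorem TCL_glue {V : Type} [Fintype V] [DecidableEq V] {m : ℕ} (cl : V → Fin m) (e : ℕ)
    (h : ∀ j, e + 1 ≤ (univ.filter (fun x => cl x = j)).card) :
    ∃ F : Fin e → (V ≃ V), (∀ t x, cl (F t x) = cl x) ∧ (∀ t x, F t x ≠ x) ∧
      ∀ t t' x, F t x = F t' x → t = t' := by
  classical
  have h1 : ∀ j : Fin m, ∃ F : Fin e → ({x // cl x = j} ≃ {x // cl x = j}),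
      (∀ t x, F t x ≠ x) ∧ ∀ t t' x, F t x = F t' x → t = t' := by
    intro j
    apply TCL_shift
    rw [Fintype.card_subtype]
    exact h j
  choose F' h2 h3 using h1
  have hF : ∀ (t : Fin e) (x : V),
      ((Equiv.sigmaFiberEquiv cl).symm.trans ((Equiv.sigmaCongrRight (fun j => F' j t)).trans
        (Equiv.sigmaFiberEquiv cl))) x = (F' (cl x) t ⟨x, rfl⟩).1 := by
    intro t x
    rfl
  refine ⟨fun t => (Equiv.sigmaFiberEquiv cl).symm.trans ((Equiv.sigmaCongrRight
    (fun j => F' j t)).trans (Equiv.sigmaFiberEquiv cl)), ?_, ?_, ?_⟩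
  · intro t x
    show cl (((Equiv.sigmaFiberEquiv cl).symm.trans ((Equiv.sigmaCongrRight (fun j => F' j t)).trans
        (Equiv.sigmaFiberEquiv cl))) x) = cl x
    rw [hF]
    exact (F' (cl x) t ⟨x, rfl⟩).2
  · intro t x hx
    have hx' : (F' (cl x) t ⟨x, rfl⟩).1 = x := by
      rw [← hF]
      exact hx
    exact h2 (cl x) t ⟨x, rfl⟩ (Subtype.ext hx')
  · intro t t' x hx
    have hx' : (F' (cl x) t ⟨x, rfl⟩).1 = (F' (cl x) t' ⟨x, rfl⟩).1 := by
      rw [← hF, ← hF]
      exact hx
    exact h3 (cl x) t t' ⟨x, rfl⟩ (Subtype.ext hx')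

/-- sizes of the residue classes -/
theorem TCL_card (h m : ℕ) [NeZero h] (hm : 0 < m) (j : ℕ) (hj : j < m) :
    h / m ≤ (univ.filter (fun x : ZMod h => x.val % m = j)).card ∧
      (univ.filter (fun x : ZMod h => x.val % m = j)).card ≤ h / m + 1 := by
  have h1 : (univ.filter (fun x : ZMod h => x.val % m = j)).card = h.count (· ≡ j [MOD m]) := by
    rw [Nat.count_eq_card_filter_range]
    refine Finset.card_nbij' (fun x => x.val) (fun a => (a : ZMod h)) ?_ ?_ ?_ ?_
    · intro x hx
      simp only [Finset.coe_filter, Finset.mem_univ, true_and, Set.mem_ofPred_eq] at hx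
      simp only [Finset.coe_filter, Finset.mem_range, Set.mem_ofPred_eq]
      refine ⟨ZMod.val_lt x, ?_⟩
      show x.val % m = j % m
      rw [hx, Nat.mod_eq_of_lt hj]
    · intro a ha
      simp only [Finset.coe_filter, Finset.mem_range, Set.mem_ofPred_eq] at ha
      simp only [Finset.coe_filter, Finset.mem_univ, true_and, Set.mem_ofPred_eq]
      rw [ZMod.val_natCast_of_lt ha.1]
      have := ha.2
      have h2 : a % m = j % m := this
      rw [h2, Nat.mod_eq_of_lt hj]
    · intro x _
      simp
    · intro a ha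
      simp only [Finset.coe_filter, Finset.mem_range, Set.mem_ofPred_eq] at ha
      exact ZMod.val_natCast_of_lt ha.1
  rw [h1, Nat.count_modEq_card _ hm]
  split_ifs <;> omega

/-- the matchings outside of the shifts -/
theorem TCL_match (hK : Stmt_KOE) (h e : ℕ) [NeZero h] (F : Fin e → (ZMod h ≃ ZMod h))
    (hne : ∀ t x, F t x ≠ x) (hinj : ∀ t t' x, F t x = F t' x → t = t') :
    ∃ M : Fin (h - 1 - e) → (ZMod h ≃ ZMod h),
      (∀ i x, M i x ≠ x) ∧ (∀ i i' x, M i x = M i' x → i = i') ∧ (∀ t i x, F t x ≠ M i x) ∧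
      (∀ x y, x ≠ y → (∃ t, F t x = y) ∨ ∃ i, M i x = y) := by
  classical
  have hrow : ∀ x : ZMod h, (univ.filter (fun y : ZMod h => x = y ∨ ∃ t, F t x = y)).card = e + 1 := by
    intro x
    have h1 : univ.filter (fun y : ZMod h => x = y ∨ ∃ t, F t x = y) =
        insert x (univ.image (fun t => F t x)) := by
      ext y
      simp only [mem_filter, mem_univ, true_and, mem_insert, mem_image]
      constructor
      · rintro (h | h)
        · exact Or.inl h.symm
        · exact Or.inr h
      · rintro (h | h)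
        · exact Or.inl h.symm
        · exact Or.inr h
    rw [h1, Finset.card_insert_of_notMem, Finset.card_image_of_injective, Finset.card_univ,
      Fintype.card_fin]
    · intro t t' htt
      exact hinj t t' x htt
    · simp only [mem_image, mem_univ, true_and, not_exists]
      intro t
      exact hne t x
  have hcol : ∀ y : ZMod h, (univ.filter (fun x : ZMod h => x = y ∨ ∃ t, F t x = y)).card = e + 1 := by
    intro y
    have h1 : univ.filter (fun x : ZMod h => x = y ∨ ∃ t, F t x = y) =
        insert y (univ.image (fun t => (F t).symm y)) := by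
      ext x
      simp only [mem_filter, mem_univ, true_and, mem_insert, mem_image]
      constructor
      · rintro (h | ⟨t, h⟩)
        · exact Or.inl h
        · exact Or.inr ⟨t, by rw [← h]; simp⟩
      · rintro (h | ⟨t, h⟩)
        · exact Or.inl h
        · exact Or.inr ⟨t, by rw [← h]; simp⟩
    rw [h1, Finset.card_insert_of_notMem, Finset.card_image_of_injective, Finset.card_univ,
      Fintype.card_fin]
    · intro t t' htt
      have h2 : (F t).symm y = (F t').symm y := htt
      apply hinj t t' ((F t).symm y)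
      rw [Equiv.apply_symm_apply, h2, Equiv.apply_symm_apply]
    · simp only [mem_image, mem_univ, true_and, not_exists]
      intro t ht
      apply hne t ((F t).symm y)
      rw [Equiv.apply_symm_apply, ht]
  have hsum : ∀ P : ZMod h → Prop, [DecidablePred P] → (univ.filter P).card = e + 1 →
      ∑ y, (if P y then 0 else 1) = h - 1 - e := by
    intro P _ hP
    have h1 : ∑ y, (if P y then 0 else 1) = (univ.filter (fun y => ¬ P y)).card := by
      rw [Finset.card_filter]
      apply Finset.sum_congr rfl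
      intro y _
      by_cases hy : P y <;> simp [hy]
    have h2 := Finset.card_filter_add_card_filter_not (s := (univ : Finset (ZMod h))) P
    rw [Finset.card_univ, ZMod.card] at h2
    rw [h1]
    omega
  obtain ⟨π, hπ⟩ := hK (ZMod h) (ZMod h) (h - 1 - e)
    (fun x y => if (x = y ∨ ∃ t, F t x = y) then 0 else 1) rfl
    (fun x => hsum _ (hrow x)) (fun y => hsum _ (hcol y))
  have hzero : ∀ x y, (x = y ∨ ∃ t, F t x = y) → ∀ i, π i x ≠ y := by
    intro x y hxy i hi
    have h1 := hπ x y
    rw [if_pos hxy] at h1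
    have h2 := Finset.card_eq_zero.1 h1.symm
    have h3 : i ∈ univ.filter (fun z => π z x = y) := by simp [hi]
    rw [h2] at h3
    simp at h3
  have hone : ∀ x y, ¬ (x = y ∨ ∃ t, F t x = y) →
      (univ.filter (fun z => π z x = y)).card = 1 := by
    intro x y hxy
    have h1 := hπ x y
    rw [if_neg hxy] at h1
    exact h1.symm
  refine ⟨π, ?_, ?_, ?_, ?_⟩
  · intro i x
    exact hzero x x (Or.inl rfl) i
  · intro i i' x hii
    by_cases hxy : (x = π i x ∨ ∃ t, F t x = π i x)
    · exact absurd rfl (hzero x (π i x) hxy i)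
    · have h1 := hone x (π i x) hxy
      rw [Finset.card_eq_one] at h1
      obtain ⟨a, ha⟩ := h1
      have h2 : i ∈ univ.filter (fun z => π z x = π i x) := by simp
      have h3 : i' ∈ univ.filter (fun z => π z x = π i x) := by simp [hii]
      rw [ha, Finset.mem_singleton] at h2 h3
      rw [h2, h3]
  · intro t i x hti
    exact hzero x (F t x) (Or.inr ⟨t, rfl⟩) i hti.symm
  · intro x y hxy
    by_cases ht : ∃ t, F t x = y
    · exact Or.inl ht
    · right
      have h1 := hone x y (by rintro (h | h); exacts [hxy h, ht h])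
      have h2 : 0 < (univ.filter (fun z => π z x = y)).card := by rw [h1]; exact Nat.one_pos
      obtain ⟨i, hi⟩ := Finset.card_pos.1 h2
      exact ⟨i, (Finset.mem_filter.1 hi).2⟩

theorem stmt_TCL (hK : Stmt_KOE) : Stmt_TCL := by
  classical
  intro h m e _ hm hme
  have hdiv : e + 2 ≤ h / m := by
    rw [Nat.le_div_iff_mul_le (by omega)]
    rw [mul_comm]
    exact hme
  have hcl : ∀ j : Fin m, (univ.filter (fun x : ZMod h =>
      (⟨x.val % m, Nat.mod_lt _ (by omega)⟩ : Fin m) = j)) =
      univ.filter (fun x : ZMod h => x.val % m = j.val) := by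
    intro j
    apply Finset.filter_congr
    intro x _
    rw [Fin.ext_iff]
  obtain ⟨F, hF1, hF2, hF3⟩ := TCL_glue (V := ZMod h)
    (fun x => (⟨x.val % m, Nat.mod_lt _ (by omega)⟩ : Fin m)) e (by
      intro j
      have h1 := (TCL_card h m (by omega) j.val j.isLt).1
      have h2 := congrArg Finset.card (hcl j)
      have h3 : e + 1 ≤ (univ.filter (fun x : ZMod h =>
        (⟨x.val % m, Nat.mod_lt _ (by omega)⟩ : Fin m) = j)).card := by
        rw [h2]
        omega
      exact h3)
  obtain ⟨M, hM1, hM2, hM3, hM4⟩ := TCL_match hK h e F hF2 hF3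
  refine ⟨fun x => (⟨x.val % m, Nat.mod_lt _ (by omega)⟩ : Fin m), F, M, hF1, hF2, hM1, hF3, hM2,
    hM3, hM4, ?_⟩
  intro j
  have h1 := (TCL_card h m (by omega) j.val j.isLt).2
  have h2 := congrArg Finset.card (hcl j)
  have h3 : (univ.filter (fun x : ZMod h =>
    (⟨x.val % m, Nat.mod_lt _ (by omega)⟩ : Fin m) = j)).card ≤ h / m + m := by
    rw [h2]
    omega
  exact h3

end Pool.Agent.Work.MP_1ce445_top
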