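import Pool.Agent.Work.MP_1ce445_top.Interface

/-!
Block TDA of THEOREM TOP (MP_1ce445_co).
-/

namespace Pool.Agent.Work.MP_1ce445_top

open Finset Pool.Agent.Work.MP_1ce445_co_56 Pool.Agent.Work.MP_1ce445_lin

/-- The perfect matchings. -/
def TDA_mu {h k : ℕ} (M : Fin k → (ZMod h ≃ ZMod h)) :
    ZMod h ⊕ Fin k → ZMod h ⊕ ZMod h → ZMod h ⊕ ZMod h
  | Sum.inl c, Sum.inl x => if x + x = c then Sum.inr x else Sum.inl (c - x)
  | Sum.inl c, Sum.inr x => if x + x = c then Sum.inl x else Sum.inr (c - x)
  | Sum.inr i, Sum.inl x => Sum.inr (M i x)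
  | Sum.inr i, Sum.inr y => Sum.inl ((M i).symm y)

/-- The other pairs. -/
def TDA_W {h e : ℕ} (F : Fin e → (ZMod h ≃ ZMod h)) : ZMod h ⊕ ZMod h → ZMod h ⊕ ZMod h → Prop
  | Sum.inl x, Sum.inr y => ∃ t, F t x = y
  | Sum.inr y, Sum.inl x => ∃ t, F t x = y
  | Sum.inl _, Sum.inl _ => False
  | Sum.inr _, Sum.inr _ => False

theorem TDA_double {h : ℕ} (c x : ZMod h) (hc : ¬ x + x = c) : ¬ (c - x) + (c - x) = c := by
  intro h1
  apply hc
  linear_combination -h1

theorem TDA_td {h m k e : ℕ} (hm : m ≤ h) [NeZero h] (cl : ZMod h → Fin m)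
    (F : Fin e → (ZMod h ≃ ZMod h)) (M : Fin k → (ZMod h ≃ ZMod h))
    (h1 : ∀ t x, cl (F t x) = cl x) (h2 : ∀ t x, F t x ≠ x) (h3 : ∀ i x, M i x ≠ x)
    (h5 : ∀ i i' x, M i x = M i' x → i = i')
    (h6 : ∀ t i x, F t x ≠ M i x)
    (h7 : ∀ x y, x ≠ y → (∃ t, F t x = y) ∨ ∃ i, M i x = y) :
    Td (TDA_mu M) (TDA_W F) (Sum.elim cl cl) (fun t => Sum.inl ((t.val : ℕ) : ZMod h)) where
  inv := by
    rintro (c | i) (x | x)
    · by_cases hc : x + x = c
      · simp [TDA_mu, hc]
      · simp only [TDA_mu, if_neg hc, if_neg (TDA_double c x hc)]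
        congr 1
        ring
    · by_cases hc : x + x = c
      · simp [TDA_mu, hc]
      · simp only [TDA_mu, if_neg hc, if_neg (TDA_double c x hc)]
        congr 1
        ring
    · simp [TDA_mu]
    · simp [TDA_mu]
  ne := by
    rintro (c | i) (x | x)
    · by_cases hc : x + x = c
      · simp [TDA_mu, hc]
      · simp only [TDA_mu, if_neg hc, ne_eq, Sum.inl.injEq]
        intro h
        apply hc
        linear_combination -h
    · by_cases hc : x + x = c
      · simp [TDA_mu, hc]
      · simp only [TDA_mu, if_neg hc, ne_eq, Sum.inr.injEq]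
        intro h
        apply hc
        linear_combination -h
    · simp [TDA_mu]
    · simp [TDA_mu]
  dis := by
    rintro (c | i) (c' | i') (x | x) h
    · by_cases hc : x + x = c
      · by_cases hc' : x + x = c'
        · rw [← hc, ← hc']
        · simp only [TDA_mu, if_pos hc, if_neg hc'] at h
          simp at h
      · by_cases hc' : x + x = c'
        · simp only [TDA_mu, if_neg hc, if_pos hc'] at h
          simp at h
        · simp only [TDA_mu, if_neg hc, if_neg hc', Sum.inl.injEq] at h
          congr 1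
          linear_combination h
    · by_cases hc : x + x = c
      · by_cases hc' : x + x = c'
        · rw [← hc, ← hc']
        · simp only [TDA_mu, if_pos hc, if_neg hc'] at h
          simp at h
      · by_cases hc' : x + x = c'
        · simp only [TDA_mu, if_neg hc, if_pos hc'] at h
          simp at h
        · simp only [TDA_mu, if_neg hc, if_neg hc', Sum.inr.injEq] at h
          congr 1
          linear_combination h
    · by_cases hc : x + x = c
      · simp only [TDA_mu, if_pos hc, Sum.inr.injEq] at h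
        exact absurd h.symm (h3 i' x)
      · simp only [TDA_mu, if_neg hc] at h
        simp at h
    · by_cases hc : x + x = c
      · simp only [TDA_mu, if_pos hc, Sum.inl.injEq] at h
        exact absurd ((Equiv.symm_apply_eq _).1 h.symm).symm (h3 i' x)
      · simp only [TDA_mu, if_neg hc] at h
        simp at h
    · by_cases hc : x + x = c'
      · simp only [TDA_mu, if_pos hc, Sum.inr.injEq] at h
        exact absurd h (h3 i x)
      · simp only [TDA_mu, if_neg hc] at h
        simp at h
    · by_cases hc : x + x = c'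
      · simp only [TDA_mu, if_pos hc, Sum.inl.injEq] at h
        exact absurd ((Equiv.symm_apply_eq _).1 h).symm (h3 i x)
      · simp only [TDA_mu, if_neg hc] at h
        simp at h
    · simp only [TDA_mu, Sum.inr.injEq] at h
      rw [h5 i i' x h]
    · simp only [TDA_mu, Sum.inl.injEq] at h
      have h8 : M i ((M i).symm x) = M i' ((M i).symm x) := by
        rw [Equiv.apply_symm_apply, h, Equiv.apply_symm_apply]
      rw [h5 i i' _ h8]
  w_symm := by
    rintro (x | x) (y | y) h
    · exact h
    · exact h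
    · exact h
    · exact h
  w_irr := by
    rintro (x | x) h
    · exact h
    · exact h
  w_mu := by
    rintro (x | x) (y | y) (c | i) h h'
    · exact h
    · exact h
    · obtain ⟨t, ht⟩ := h
      by_cases hc : x + x = c
      · simp only [TDA_mu, if_pos hc, Sum.inr.injEq] at h'
        rw [← h'] at ht
        exact h2 t x ht
      · simp only [TDA_mu, if_neg hc] at h'
        simp at h'
    · obtain ⟨t, ht⟩ := h
      simp only [TDA_mu, Sum.inr.injEq] at h'
      exact h6 t i x (by rw [ht, h'])
    · obtain ⟨t, ht⟩ := h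
      by_cases hc : x + x = c
      · simp only [TDA_mu, if_pos hc, Sum.inl.injEq] at h'
        rw [← h'] at ht
        exact h2 t x ht
      · simp only [TDA_mu, if_neg hc] at h'
        simp at h'
    · obtain ⟨t, ht⟩ := h
      simp only [TDA_mu, Sum.inl.injEq] at h'
      rw [Equiv.symm_apply_eq] at h'
      exact h6 t i y (by rw [ht, h'])
    · exact h
    · exact h
  cov := by
    rintro (x | x) (y | y) h
    · right
      have hxy : x ≠ y := fun h' => h (by rw [h'])
      refine ⟨Sum.inl (x + y), ?_⟩
      have hc : ¬ x + x = x + y := fun h' => hxy (add_left_cancel h')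
      simp only [TDA_mu, if_neg hc]
      congr 1
      ring
    · by_cases hxy : x = y
      · right
        refine ⟨Sum.inl (x + x), ?_⟩
        simp [TDA_mu, hxy]
      · rcases h7 x y hxy with ⟨t, ht⟩ | ⟨i, hi⟩
        · left
          exact ⟨t, ht⟩
        · right
          refine ⟨Sum.inr i, ?_⟩
          simp [TDA_mu, hi]
    · by_cases hxy : x = y
      · right
        refine ⟨Sum.inl (x + x), ?_⟩
        simp [TDA_mu, hxy]
      · rcases h7 y x (Ne.symm hxy) with ⟨t, ht⟩ | ⟨i, hi⟩
        · left
          exact ⟨t, ht⟩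
        · right
          refine ⟨Sum.inr i, ?_⟩
          simp only [TDA_mu, Sum.inl.injEq]
          rw [Equiv.symm_apply_eq]
          exact hi.symm
    · right
      have hxy : x ≠ y := fun h' => h (by rw [h'])
      refine ⟨Sum.inl (x + y), ?_⟩
      have hc : ¬ x + x = x + y := fun h' => hxy (add_left_cancel h')
      simp only [TDA_mu, if_neg hc]
      congr 1
      ring
  w_cl := by
    rintro (x | x) (y | y) h
    · exact absurd h (by intro h; exact h)
    · obtain ⟨t, ht⟩ := h
      simp only [Sum.elim_inl, Sum.elim_inr]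
      rw [← ht, h1]
    · obtain ⟨t, ht⟩ := h
      simp only [Sum.elim_inl, Sum.elim_inr]
      rw [← ht, h1]
    · exact absurd h (by intro h; exact h)
  bg_inj := by
    intro s t h
    simp only [Sum.inl.injEq] at h
    have h8 := congrArg ZMod.val h
    rw [ZMod.val_natCast_of_lt (lt_of_lt_of_le s.isLt hm),
      ZMod.val_natCast_of_lt (lt_of_lt_of_le t.isLt hm)] at h8
    exact Fin.ext h8

theorem TDA_card {h m s : ℕ} [NeZero h] (cl : ZMod h → Fin m) (t : Fin m)
    (hs : (univ.filter (fun x => cl x = t)).card ≤ s) :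
    (univ.filter (fun v : ZMod h ⊕ ZMod h => Sum.elim cl cl v = t)).card ≤ 2 * s := by
  classical
  have h1 : (univ.filter (fun v : ZMod h ⊕ ZMod h => Sum.elim cl cl v = t)) ⊆
      (univ.filter (fun x => cl x = t)).image Sum.inl ∪
        (univ.filter (fun x => cl x = t)).image Sum.inr := by
    rintro (x | x) hx
    · rw [mem_filter] at hx
      refine mem_union_left _ (mem_image_of_mem _ ?_)
      rw [mem_filter]
      exact ⟨mem_univ _, hx.2⟩
    · rw [mem_filter] at hx
      refine mem_union_right _ (mem_image_of_mem _ ?_)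
      rw [mem_filter]
      exact ⟨mem_univ _, hx.2⟩
  have h2 := card_le_card h1
  have h3 := card_union_le ((univ.filter (fun x => cl x = t)).image
    (Sum.inl : ZMod h → ZMod h ⊕ ZMod h))
    ((univ.filter (fun x => cl x = t)).image (Sum.inr : ZMod h → ZMod h ⊕ ZMod h))
  have h4 : ((univ.filter (fun x => cl x = t)).image
    (Sum.inl : ZMod h → ZMod h ⊕ ZMod h)).card ≤ s := card_image_le.trans hs
  have h5 : ((univ.filter (fun x => cl x = t)).image
    (Sum.inr : ZMod h → ZMod h ⊕ ZMod h)).card ≤ s := card_image_le.trans hs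
  omega

theorem TDA_rp {h k e : ℕ} (F : Fin e → (ZMod h ≃ ZMod h)) (M : Fin k → (ZMod h ≃ ZMod h))
    (h4 : ∀ t t' x, F t x = F t' x → t = t') {m : ℕ} {cl : ZMod h ⊕ ZMod h → Fin m}
    {bg : Fin m → ZMod h ⊕ Fin k} (hT : Td (TDA_mu M) (TDA_W F) cl bg) (he : 2 ≤ e) :
    Rp (TDA_mu M) (TDA_W F) (Sum.inr 0)
      (fun v => match v with
        | Sum.inl x => Sum.inr (F ⟨0, by omega⟩ x)
        | Sum.inr y => Sum.inl ((F ⟨1, by omega⟩).symm y)) where
  w := by
    intro i
    generalize TDA_mu M i (Sum.inr 0) = v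
    rcases v with x | y
    · exact ⟨_, rfl⟩
    · exact ⟨⟨1, by omega⟩, by simp⟩
  ne := by
    intro i
    generalize hv : TDA_mu M i (Sum.inr 0) = v
    rcases v with x | y
    · intro h
      simp only [Sum.inr.injEq] at h
      have h8 : TDA_W F (Sum.inr 0) (Sum.inl x) := ⟨_, h⟩
      exact hT.w_mu _ _ i h8 hv
    · simp
  dis := by
    intro i j _ h
    revert h
    generalize TDA_mu M i (Sum.inr 0) = v
    generalize TDA_mu M j (Sum.inr 0) = w
    rintro ⟨ha, hb⟩
    rcases v with x | y
    · simp only at ha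
      rw [← ha] at hb
      simp only [Sum.inl.injEq] at hb
      rw [Equiv.symm_apply_eq] at hb
      have := h4 _ _ _ hb
      simp at this
    · simp only at ha
      rw [← ha] at hb
      simp only [Sum.inr.injEq] at hb
      have h9 : F ⟨0, by omega⟩ ((F ⟨1, by omega⟩).symm y) =
          F ⟨1, by omega⟩ ((F ⟨1, by omega⟩).symm y) := by
        rw [hb, Equiv.apply_symm_apply]
      have := h4 _ _ _ h9
      simp at this

theorem stmt_TDA (h1 : Stmt_TCL) : Stmt_TDA := by
  intro h m e _ hm hme
  obtain ⟨cl, F, M, a1, a2, a3, a4, a5, a6, a7, a8⟩ := h1 h m e hm hme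
  have hmh : m ≤ h := by nlinarith
  have hT := TDA_td hmh cl F M a1 a2 a3 a5 a6 a7
  exact ⟨_, _, _, _, hT, fun t => TDA_card cl t (a8 t), fun he => ⟨_, _, TDA_rp F M a4 hT he⟩⟩

end Pool.Agent.Work.MP_1ce445_top
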