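import Pool.Agent.Work.MP_1ce445_top.Interface

/-!
MP_1ce445_co, block TLW: the lower bound.
-/

namespace Pool.Agent.Work.MP_1ce445_top

open Finset Pool.Agent.Work.MP_1ce445_co_56 Pool.Agent.Work.MP_1ce445_lin

theorem TLW_pow (a b : ℝ) (hb : 0 ≤ b) (hba : b ≤ a) (ha : a ≤ 1) (m : ℕ) :
    a ^ m - m * b ≤ (a - b) ^ m := by
  induction m with
  | zero => simp
  | succ m ih =>
    have h1 : 0 ≤ a - b := by linarith
    have h2 : (a - b) ^ m ≤ 1 := pow_le_one₀ h1 (by linarith)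
    have h3 : 0 ≤ (a - b) ^ m := pow_nonneg h1 m
    have h4 : a * (a ^ m - m * b) ≤ a * (a - b) ^ m := mul_le_mul_of_nonneg_left ih (by linarith)
    have h5 : b * (a - b) ^ m ≤ b * 1 := mul_le_mul_of_nonneg_left h2 hb
    have h6 : a * (m * b) ≤ 1 * (m * b) := mul_le_mul_of_nonneg_right ha (by positivity)
    push_cast
    rw [pow_succ, pow_succ]
    nlinarith

/-- The choice of `m`. -/
theorem TLW_m (ε : ℝ) (hε : 0 < ε) :
    ∃ m : ℕ, 2 ≤ m ∧ Real.exp (-1) - ε / 2 ≤ (1 - 1 / (m : ℝ)) ^ m := by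
  have h1 := Real.tendsto_one_add_div_pow_exp (-1)
  have h2 : ∀ᶠ m : ℕ in Filter.atTop, Real.exp (-1) - ε / 2 < (1 + -1 / (m : ℝ)) ^ m :=
    h1.eventually_const_lt (by linarith)
  obtain ⟨m, hm1, hm2⟩ := (h2.and (Filter.eventually_ge_atTop 2)).exists
  refine ⟨m, hm2, ?_⟩
  have h3 : (1 + -1 / (m : ℝ)) = 1 - 1 / (m : ℝ) := by ring
  rw [h3] at hm1
  exact hm1.le

/-- The real estimate. -/
theorem TLW_real (ε : ℝ) (m n k N x p : ℕ) (hm : 2 ≤ m)
    (hme : Real.exp (-1) - ε / 2 ≤ (1 - 1 / (m : ℝ)) ^ m)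
    (hn1 : (8 * m + 12 : ℝ) ≤ n) (hn2 : (2 * m * (2 * m + 3) : ℝ) ≤ ε * n)
    (hN : N ≤ n) (hkm : m ≤ k)
    (hx : (n : ℝ) - n / m - (2 * m + 3) ≤ x)
    (hP : N ^ (k - m) * x ^ m ≤ p) :
    (Real.exp (-1) - ε) * (N : ℝ) ^ k ≤ (p : ℝ) := by
  have hm2 : (2 : ℝ) ≤ m := by exact_mod_cast hm
  have hn0 : (0 : ℝ) < n := by linarith
  have hR : (N : ℝ) ^ (k - m) * (x : ℝ) ^ m ≤ (p : ℝ) := by exact_mod_cast hP
  refine le_trans ?_ hR
  have ha0 : 1 / 2 ≤ 1 - 1 / (m : ℝ) := by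
    have : 1 / (m : ℝ) ≤ 1 / 2 := one_div_le_one_div_of_le (by norm_num) hm2
    linarith
  have ha1 : 1 - 1 / (m : ℝ) ≤ 1 := by
    have : 0 ≤ 1 / (m : ℝ) := by positivity
    linarith
  have hcast : (1 - 1 / (m : ℝ)) * n - (2 * m + 3) ≤ x := by
    have : (1 - 1 / (m : ℝ)) * n = n - n / m := by ring
    rw [this]; exact hx
  obtain ⟨a, hadef⟩ : ∃ a : ℝ, a = 1 - 1 / (m : ℝ) := ⟨_, rfl⟩
  rw [← hadef] at hcast ha0 ha1 hme
  have hb : (2 * m + 3) / (n : ℝ) ≤ a := by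
    rw [div_le_iff₀ hn0]
    have : 1 / 2 * (n : ℝ) ≤ a * n := mul_le_mul_of_nonneg_right ha0 hn0.le
    linarith
  have hpow := TLW_pow a ((2 * m + 3) / n) (by positivity) hb ha1 m
  have hsmall : (m : ℝ) * ((2 * m + 3) / n) ≤ ε / 2 := by
    rw [mul_div_assoc', div_le_iff₀ hn0]
    linarith
  have hkpow : (N : ℝ) ^ k = (N : ℝ) ^ (k - m) * (N : ℝ) ^ m := by
    rw [← pow_add]; congr 1; omega
  have hNN : (N : ℝ) ≤ n := by exact_mod_cast hN
  have hNN0 : (0 : ℝ) ≤ (N : ℝ) := Nat.cast_nonneg _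
  have hmain : (Real.exp (-1) - ε) * (N : ℝ) ^ m ≤ (x : ℝ) ^ m := by
    rcases le_total (Real.exp (-1) - ε) 0 with h0 | h0
    · exact (mul_nonpos_of_nonpos_of_nonneg h0 (by positivity)).trans (by positivity)
    · calc (Real.exp (-1) - ε) * (N : ℝ) ^ m
          ≤ (Real.exp (-1) - ε) * (n : ℝ) ^ m :=
            mul_le_mul_of_nonneg_left (pow_le_pow_left₀ hNN0 hNN _) h0
        _ ≤ (a - (2 * m + 3) / n) ^ m * (n : ℝ) ^ m :=
            mul_le_mul_of_nonneg_right (by linarith) (by positivity)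
        _ = (a * n - (2 * m + 3)) ^ m := by
            rw [← mul_pow]
            congr 1
            field_simp
        _ ≤ _ := by
            apply pow_le_pow_left₀ _ hcast
            have : 1 / 2 * (n : ℝ) ≤ a * n := mul_le_mul_of_nonneg_right ha0 hn0.le
            linarith
  calc (Real.exp (-1) - ε) * (N : ℝ) ^ k
      = (N : ℝ) ^ (k - m) * ((Real.exp (-1) - ε) * (N : ℝ) ^ m) := by
        rw [hkpow]; ring
    _ ≤ _ := mul_le_mul_of_nonneg_left hmain (by positivity)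

theorem TLW_even (h1 : Stmt_TAE) (h3 : Stmt_TDA) (h m k e : ℕ) (hm : 1 ≤ m)
    (hme : m * (e + 2) ≤ h) (hk : k + 1 + e = 2 * h) :
    (2 * h) ^ (k - m) * (2 * h - 2 * (h / m + m)) ^ m ≤ P (2 * h) k := by
  have hmul : e + 2 ≤ m * (e + 2) := Nat.le_mul_of_pos_left _ hm
  have : NeZero h := ⟨by omega⟩
  obtain ⟨μ, W, cl, bg, hTd, hs, -⟩ := h3 h m e hm hme
  have h4 := h1 μ W cl bg (2 * (h / m + m)) hTd hs
  have hV : Fintype.card (ZMod h ⊕ ZMod h) = 2 * h := by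
    rw [Fintype.card_sum, ZMod.card]; ring
  have hI : Fintype.card (ZMod h ⊕ Fin (h - 1 - e)) = k := by
    rw [Fintype.card_sum, ZMod.card, Fintype.card_fin]; omega
  rw [hV, hI] at h4
  exact h4

theorem TLW_odd (h2 : Stmt_TAO) (h3 : Stmt_TDA) (h m k e : ℕ) (hm : 1 ≤ m) (he : 2 ≤ e)
    (hme : m * (e + 2) ≤ h) (hk : k + 1 + e = 2 * h) :
    (2 * h - 2) ^ (k - m) * (2 * h - (2 * (h / m + m) + 3)) ^ m ≤ P (2 * h - 1) k := by
  have hmul : e + 2 ≤ m * (e + 2) := Nat.le_mul_of_pos_left _ hm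
  have : NeZero h := ⟨by omega⟩
  obtain ⟨μ, W, cl, bg, hTd, hs, hrp⟩ := h3 h m e hm hme
  obtain ⟨y0, ρ, hρ⟩ := hrp he
  have h4 := h2 μ W cl bg (2 * (h / m + m)) y0 ρ hTd hρ hs
  have hV : Fintype.card (ZMod h ⊕ ZMod h) = 2 * h := by
    rw [Fintype.card_sum, ZMod.card]; ring
  have hI : Fintype.card (ZMod h ⊕ Fin (h - 1 - e)) = k := by
    rw [Fintype.card_sum, ZMod.card, Fintype.card_fin]; omega
  rw [hV, hI] at h4
  exact h4

/-- `2 (h/m + m)` as a real number. -/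
theorem TLW_cast (h m : ℕ) :
    ((2 * (h / m + m) : ℕ) : ℝ) ≤ 2 * h / m + 2 * m := by
  have h1 : ((h / m : ℕ) : ℝ) ≤ (h : ℝ) / m := Nat.cast_div_le
  push_cast
  have h2 : 2 * (h : ℝ) / m = 2 * (h / m) := by ring
  rw [h2]
  linarith

/-- Block TLW. -/
theorem stmt_TLW (h1 : Stmt_TAE) (h2 : Stmt_TAO) (h3 : Stmt_TDA) : Stmt_TLW := by
  intro ε hε
  obtain ⟨m, hm, hme⟩ := TLW_m ε hε
  obtain ⟨n1, hn1⟩ := exists_nat_ge ((2 * m * (2 * m + 3) : ℝ) / ε)
  refine ⟨8 * m, 16 * m + 12 + n1, by omega, fun n k hn hk1 hk2 => ?_⟩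
  have hm2 : (2 : ℝ) ≤ m := by exact_mod_cast hm
  have hm0 : (0 : ℝ) < m := by linarith
  have hnR : (16 * m + 12 : ℝ) ≤ n := by exact_mod_cast (by omega : 16 * m + 12 ≤ n)
  have hnn : (2 * m * (2 * m + 3) : ℝ) ≤ ε * n := by
    have h4 : (2 * m * (2 * m + 3) : ℝ) / ε ≤ n := hn1.trans (by exact_mod_cast (by omega : n1 ≤ n))
    rw [div_le_iff₀ hε] at h4
    linarith
  have hn8 : (8 * m + 12 : ℝ) ≤ n := by linarith
  -- `8 m (n - k) ≤ n`
  have hk3 : 8 * m * n ≤ n + 8 * m * k := by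
    have h4 : (8 * m * n : ℝ) ≤ n + 8 * m * k := by
      push_cast at hk1
      have h5 := mul_le_mul_of_nonneg_left hk1 (by positivity : (0 : ℝ) ≤ 8 * m)
      have h6 : 8 * (m : ℝ) * ((1 - 1 / (8 * m)) * n) = 8 * m * n - n := by
        field_simp
      linarith
    exact_mod_cast h4
  obtain ⟨d, hd⟩ : ∃ d, n = k + d := ⟨n - k, by omega⟩
  have hd8 : 8 * (m * d) ≤ n := by
    have h5 : 8 * m * n = 8 * m * k + 8 * (m * d) := by rw [hd]; ring
    omega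
  have hdn : 8 * d ≤ n := by
    have : d ≤ m * d := Nat.le_mul_of_pos_left _ (by omega)
    omega
  have hkm : m ≤ k := by omega
  rcases Nat.even_or_odd' n with ⟨h, hh | hh⟩
  · -- even
    obtain ⟨e, he⟩ : ∃ e, k + 1 + e = 2 * h := ⟨2 * h - k - 1, by omega⟩
    have hed : e + 1 = d := by omega
    have hmeh : m * (e + 2) ≤ h := by
      have h5 : m * (e + 2) = m * d + m := by rw [← hed]; ring
      omega
    have h6 := TLW_even h1 h3 h m k e (by omega) hmeh he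
    have hNN : NN n = 2 * h := by unfold NN; omega
    rw [hNN]
    rw [← hh] at h6 ⊢
    refine TLW_real ε m n k n _ _ hm hme hn8 hnn le_rfl hkm ?_ h6
    have h7 : (n : ℝ) - (2 * (h / m + m) : ℕ) ≤ ((n - 2 * (h / m + m) : ℕ) : ℝ) := by
      have h8 : (n : ℤ) - (2 * (h / m + m) : ℕ) ≤ ((n - 2 * (h / m + m) : ℕ) : ℤ) := by
        generalize h / m = q
        omega
      exact_mod_cast h8
    have h8 := TLW_cast h m
    have h9 : (n : ℝ) = 2 * h := by rw [hh]; push_cast; ring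
    rw [← h9] at h8
    linarith
  · -- odd
    obtain ⟨e, he⟩ : ∃ e, k + 1 + e = 2 * (h + 1) := ⟨2 * (h + 1) - k - 1, by omega⟩
    have hed : e = d := by omega
    have hmeh : m * (e + 2) ≤ h + 1 := by
      have h5 : m * (e + 2) = m * d + 2 * m := by rw [← hed]; ring
      omega
    have h6 := TLW_odd h2 h3 (h + 1) m k e (by omega) (by omega) hmeh he
    have hNN : NN n = 2 * h := by unfold NN; omega
    have e1 : 2 * (h + 1) - 2 = 2 * h := by omega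
    have e2 : 2 * (h + 1) - 1 = n := by omega
    rw [e1, e2] at h6
    rw [hNN]
    refine TLW_real ε m n k (2 * h) _ _ hm hme hn8 hnn (by omega) hkm ?_ h6
    have h7 : ((n + 1 : ℕ) : ℝ) - ((2 * ((h + 1) / m + m) : ℕ) + 3) ≤
        ((2 * (h + 1) - (2 * ((h + 1) / m + m) + 3) : ℕ) : ℝ) := by
      have h8 : ((n + 1 : ℕ) : ℤ) - ((2 * ((h + 1) / m + m) : ℕ) + 3) ≤
          ((2 * (h + 1) - (2 * ((h + 1) / m + m) + 3) : ℕ) : ℤ) := by
        generalize (h + 1) / m = q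
        omega
      exact_mod_cast h8
    have h8 := TLW_cast (h + 1) m
    have h9 : (n : ℝ) + 1 = 2 * ((h + 1 : ℕ) : ℝ) := by rw [hh]; push_cast; ring
    rw [← h9] at h8
    have h10 : ((n : ℝ) + 1) / m ≤ n / m + 1 := by
      have : ((n : ℝ) + 1) / m = n / m + 1 / m := by ring
      rw [this]
      have : 1 / (m : ℝ) ≤ 1 := by
        rw [div_le_one hm0]; linarith
      linarith
    push_cast at h7 h8 ⊢
    linarith

end Pool.Agent.Work.MP_1ce445_top
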