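import Pool.Agent.Work.MP_1ce445_top.Interface

/-! Block TU1 (helper23): the total loss. -/

namespace Pool.Agent.Work.MP_1ce445_top

open Finset Pool.Agent.Work.MP_1ce445_co_56 Pool.Agent.Work.MP_1ce445_lin

lemma TU1_NN (n : ℕ) : NN n ≤ n ∧ n ≤ NN n + 1 := by
  unfold NN
  omega

lemma TU1_gam {n k : ℕ} {G : Fin k → SimpleGraph (Fin n)} (hG : IsFactorization G)
    (j : Fin k) : gammaT (G j) ≤ NN n := by
  rcases Nat.even_or_odd n with he | ho
  · have h1 : gammaT (G j) ≤ n := by simpa using gammaT_le_univ (hG.minDeg j)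
    obtain ⟨m, hm⟩ := he
    unfold NN
    omega
  · have h1 := gammaT_add_one_le (hG.minDeg j) (by simpa using ho)
    rw [Fintype.card_fin] at h1
    obtain ⟨m, hm⟩ := ho
    unfold NN
    omega

theorem TU1_core (h1 : Stmt_RAN) (h2 : Stmt_SUB) {n k : ℕ} {G : Fin k → SimpleGraph (Fin n)}
    (hG : IsFactorization G) (q K m : ℕ) (hq : 1 ≤ q) (hm : 1 ≤ m) (hk : k + (2 * m + 1) ≤ n) :
    (1 - 1 / ((K : ℝ) + 1)) * ((1 - 1 / (q : ℝ)) * (1 - (1 - 1 / (q : ℝ)) ^ m) *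
      ((1 - 2 * K * (K + 1) / m) * n)) ≤ ∑ j, ((NN n : ℝ) - gammaT (G j)) := by
  classical
  obtain ⟨x, hx⟩ : ∃ x : ℝ, x = 1 - 1 / (q : ℝ) := ⟨_, rfl⟩
  have hq' : (1 : ℝ) ≤ q := by exact_mod_cast hq
  have hq0 : (0 : ℝ) < q := by linarith
  have hx0 : 0 ≤ x := by
    rw [hx, sub_nonneg, div_le_one hq0]
    exact hq'
  have hx1 : x ≤ 1 := by
    rw [hx]
    have : 0 ≤ 1 / (q : ℝ) := by positivity
    linarith
  rw [← hx]
  have hdg : ∀ j v, 1 ≤ dg (G j) v := by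
    intro j v
    obtain ⟨w, hw⟩ := hG.minDeg j v
    exact card_pos.2 ⟨w, by simpa using hw⟩
  let e : Fin k → Fin n → ℕ := fun j v => dg (G j) v - 1
  have he : ∀ j v, dg (G j) v = e j v + 1 := by
    intro j v
    have := hdg j v
    show dg (G j) v = dg (G j) v - 1 + 1
    omega
  have hsum : ∀ v, ∑ j, e j v = n - 1 - k := by
    intro v
    have h3 : ∑ j, dg (G j) v = n - 1 := by
      have h4 := sum_degree hG v
      rw [Fintype.card_fin] at h4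
      exact h4
    have h5 : ∑ j, dg (G j) v = ∑ j, e j v + k := by
      rw [sum_congr rfl fun j _ => he j v, sum_add_distrib]
      simp
    omega
  have hγ : ∀ j, gammaT (G j) ≤ n := fun j => (TU1_gam hG j).trans (TU1_NN n).1
  have hNle : (n : ℝ) ≤ NN n + 1 := by exact_mod_cast (TU1_NN n).2
  -- the loss
  have hloss : ∀ j, ∑ v, x * (1 - x ^ (e j v)) ≤ (n : ℝ) - gammaT (G j) := by
    intro j
    have h3 := h1 (G j) q hq (hG.minDeg j)
    rw [← hx] at h3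
    have h4 : ∑ v, x * (1 - x ^ (e j v)) = (n : ℝ) - ∑ v, (1 / (q : ℝ) + x ^ (dg (G j) v)) := by
      have h5 : ∑ v : Fin n, ((1 : ℝ) - (1 / (q : ℝ) + x ^ (dg (G j) v))) =
          (n : ℝ) - ∑ v, (1 / (q : ℝ) + x ^ (dg (G j) v)) := by
        rw [sum_sub_distrib]
        simp
      rw [← h5]
      refine sum_congr rfl fun v _ => ?_
      rw [he j v, pow_succ]
      have h6 : 1 / (q : ℝ) = 1 - x := by
        rw [hx]
        ring
      rw [h6]
      ring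
    rw [h4]
    linarith
  let J : Finset (Fin k) := univ.filter fun j => K + 1 + gammaT (G j) ≤ n
  have hJc : ∀ j ∈ Jᶜ, ∑ v, e j v ≤ 2 * K * (K + 1) := by
    intro j hj
    have h3 : ¬ (K + 1 + gammaT (G j) ≤ n) := by
      intro h4
      exact (mem_compl.1 hj) (mem_filter.2 ⟨mem_univ _, h4⟩)
    have h4 := excess (hG.minDeg j)
    rw [Fintype.card_fin] at h4
    have h5 : ∑ v, dg (G j) v = ∑ v, e j v + n := by
      rw [sum_congr rfl fun v _ => he j v, sum_add_distrib]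
      simp
    have h6 : n - gammaT (G j) ≤ K := by omega
    have h7 : 2 * (n - gammaT (G j)) * (n - gammaT (G j) + 1) ≤ 2 * K * (K + 1) :=
      Nat.mul_le_mul (Nat.mul_le_mul le_rfl h6) (Nat.add_le_add_right h6 1)
    omega
  let E : Fin n → ℕ := fun v => ∑ j ∈ Jᶜ, e j v
  have hE : ∑ v, E v ≤ 2 * K * (K + 1) * n := by
    calc ∑ v, E v = ∑ j ∈ Jᶜ, ∑ v, e j v := sum_comm
      _ ≤ ∑ j ∈ Jᶜ, 2 * K * (K + 1) := sum_le_sum hJc
      _ = (Jᶜ).card * (2 * K * (K + 1)) := by rw [sum_const, smul_eq_mul]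
      _ ≤ n * (2 * K * (K + 1)) := by
          apply Nat.mul_le_mul_right
          have h3 : (Jᶜ).card ≤ Fintype.card (Fin k) := card_le_univ _
          rw [Fintype.card_fin] at h3
          omega
      _ = 2 * K * (K + 1) * n := by ring
  have hsplit : ∀ v, ∑ j ∈ J, e j v + E v = n - 1 - k := by
    intro v
    rw [← hsum v]
    exact sum_add_sum_compl J _
  let B : Finset (Fin n) := univ.filter fun v => n - 1 - k < 2 * E v
  have hB : B.card * m ≤ 2 * K * (K + 1) * n := by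
    have h3 : B.card * (2 * m) ≤ ∑ v ∈ B, 2 * E v := by
      rw [← smul_eq_mul, ← sum_const]
      refine sum_le_sum fun v hv => ?_
      have := (mem_filter.1 hv).2
      omega
    have h4 : ∑ v ∈ B, 2 * E v ≤ 2 * ∑ v, E v := by
      rw [mul_sum]
      exact sum_le_sum_of_subset (subset_univ _)
    have h5 : B.card * (2 * m) ≤ 2 * (2 * K * (K + 1) * n) :=
      h3.trans (h4.trans (Nat.mul_le_mul_left 2 hE))
    have h6 : B.card * (2 * m) = 2 * (B.card * m) := by ring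
    rw [h6] at h5
    exact Nat.le_of_mul_le_mul_left h5 (by norm_num)
  have hm0 : (0 : ℝ) < m := by exact_mod_cast hm
  have hBr : (1 - 2 * K * (K + 1) / (m : ℝ)) * n ≤ (n : ℝ) - B.card := by
    have h3 : (B.card : ℝ) * m ≤ 2 * K * (K + 1) * n := by exact_mod_cast hB
    have h4 : (B.card : ℝ) ≤ 2 * K * (K + 1) * n / m := by
      rw [le_div_iff₀ hm0]
      exact h3
    have h5 : (1 - 2 * K * (K + 1) / (m : ℝ)) * n = n - 2 * K * (K + 1) * n / m := by ring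
    rw [h5]
    linarith
  have hpos : ∀ t : ℕ, 0 ≤ 1 - x ^ t := fun t => by
    have := pow_le_one₀ (n := t) hx0 hx1
    linarith
  have hgood : ∀ v ∈ Bᶜ, 1 - x ^ m ≤ ∑ j ∈ J, (1 - x ^ (e j v)) := by
    intro v hv
    have h3 : ¬ (n - 1 - k < 2 * E v) := by
      intro h4
      exact (mem_compl.1 hv) (mem_filter.2 ⟨mem_univ _, h4⟩)
    have h4 := hsplit v
    have h5 : m ≤ ∑ j ∈ J, e j v := by omega
    refine le_trans ?_ (h2 J (fun j => e j v) x hx0 hx1)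
    have h6 := pow_le_pow_of_le_one hx0 hx1 h5
    linarith
  have hJl : x * (1 - x ^ m) * ((n : ℝ) - B.card) ≤ ∑ j ∈ J, ((n : ℝ) - gammaT (G j)) := by
    calc x * (1 - x ^ m) * ((n : ℝ) - B.card) = ∑ v ∈ Bᶜ, x * (1 - x ^ m) := by
          rw [sum_const, card_compl, Fintype.card_fin, nsmul_eq_mul,
            Nat.cast_sub (by simpa using card_le_univ B)]
          ring
      _ ≤ ∑ v ∈ Bᶜ, x * ∑ j ∈ J, (1 - x ^ (e j v)) :=
          sum_le_sum fun v hv => mul_le_mul_of_nonneg_left (hgood v hv) hx0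
      _ ≤ ∑ v, x * ∑ j ∈ J, (1 - x ^ (e j v)) :=
          sum_le_sum_of_subset_of_nonneg (subset_univ _) fun v _ _ =>
            mul_nonneg hx0 (sum_nonneg fun j _ => hpos _)
      _ = ∑ j ∈ J, ∑ v, x * (1 - x ^ (e j v)) := by
          rw [sum_comm]
          exact sum_congr rfl fun v _ => mul_sum _ _ _
      _ ≤ _ := sum_le_sum fun j _ => hloss j
  have hK0 : (0 : ℝ) < (K : ℝ) + 1 := by positivity
  have hK1 : 0 ≤ 1 - 1 / ((K : ℝ) + 1) := by
    rw [sub_nonneg, div_le_one hK0]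
    have : (0 : ℝ) ≤ K := Nat.cast_nonneg _
    linarith
  have hJN : (1 - 1 / ((K : ℝ) + 1)) * ∑ j ∈ J, ((n : ℝ) - gammaT (G j)) ≤
      ∑ j ∈ J, ((NN n : ℝ) - gammaT (G j)) := by
    rw [mul_sum]
    refine sum_le_sum fun j hj => ?_
    have h3 : K + 1 + gammaT (G j) ≤ n := (mem_filter.1 hj).2
    have h4 : (K : ℝ) + 1 + gammaT (G j) ≤ n := by exact_mod_cast h3
    have h5 : 1 ≤ ((n : ℝ) - gammaT (G j)) / ((K : ℝ) + 1) := by
      rw [le_div_iff₀ hK0]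
      linarith
    have h6 : (1 - 1 / ((K : ℝ) + 1)) * ((n : ℝ) - gammaT (G j)) =
        ((n : ℝ) - gammaT (G j)) - ((n : ℝ) - gammaT (G j)) / ((K : ℝ) + 1) := by ring
    rw [h6]
    linarith
  have hall : ∑ j ∈ J, ((NN n : ℝ) - gammaT (G j)) ≤ ∑ j, ((NN n : ℝ) - gammaT (G j)) := by
    refine sum_le_sum_of_subset_of_nonneg (subset_univ _) fun j _ _ => ?_
    have : (gammaT (G j) : ℝ) ≤ NN n := by exact_mod_cast TU1_gam hG j
    linarith
  refine le_trans (mul_le_mul_of_nonneg_left ?_ hK1) (hJN.trans hall)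
  exact (mul_le_mul_of_nonneg_left hBr (mul_nonneg hx0 (hpos m))).trans hJl

theorem stmt_TU1 (h1 : Stmt_RAN) (h2 : Stmt_SUB) : Stmt_TU1 := by
  intro ε hε
  obtain ⟨δ, hδ⟩ : ∃ δ, δ = min ε 1 / 4 := ⟨_, rfl⟩
  have hδ0 : 0 < δ := by
    rw [hδ]
    have : 0 < min ε 1 := lt_min hε one_pos
    linarith
  have hδ1 : δ ≤ 1 / 4 := by
    rw [hδ]
    have : min ε 1 ≤ 1 := min_le_right _ _
    linarith
  have hδε : 4 * δ ≤ ε := by
    rw [hδ]
    have : min ε 1 ≤ ε := min_le_left _ _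
    linarith
  obtain ⟨q, hq⟩ := exists_nat_gt (1 / δ)
  have hq0 : (0 : ℝ) < q := lt_trans (by positivity) hq
  have hq1 : 1 ≤ q := by
    have : 0 < q := by exact_mod_cast hq0
    omega
  have hqδ : 1 / (q : ℝ) ≤ δ := by
    rw [div_le_iff₀ hq0]
    rw [div_lt_iff₀ hδ0] at hq
    linarith
  obtain ⟨K, hK⟩ := exists_nat_gt (1 / δ)
  have hK0 : (0 : ℝ) < (K : ℝ) + 1 := by positivity
  have hKδ : 1 / ((K : ℝ) + 1) ≤ δ := by
    rw [div_le_iff₀ hK0]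
    rw [div_lt_iff₀ hδ0] at hK
    nlinarith
  have hx0 : 0 ≤ 1 - 1 / (q : ℝ) := by linarith
  have hx1 : 1 - 1 / (q : ℝ) < 1 := by
    have : 0 < 1 / (q : ℝ) := by positivity
    linarith
  obtain ⟨m1, hm1⟩ := exists_pow_lt_of_lt_one hδ0 hx1
  obtain ⟨m2, hm2⟩ := exists_nat_gt (2 * (K : ℝ) * (K + 1) / δ)
  obtain ⟨m, hm⟩ : ∃ m, m = m1 + m2 + 1 := ⟨_, rfl⟩
  have hmx : (1 - 1 / (q : ℝ)) ^ m ≤ δ := by
    have h3 : (1 - 1 / (q : ℝ)) ^ m ≤ (1 - 1 / (q : ℝ)) ^ m1 :=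
      pow_le_pow_of_le_one hx0 hx1.le (by omega)
    linarith
  have hm0 : (0 : ℝ) < m := by
    have : 0 < m := by omega
    exact_mod_cast this
  have hmK : 2 * (K : ℝ) * (K + 1) / m ≤ δ := by
    rw [div_le_iff₀ hm0]
    rw [div_lt_iff₀ hδ0] at hm2
    have h3 : (m2 : ℝ) ≤ m := by
      have : m2 ≤ m := by omega
      exact_mod_cast this
    have h4 := mul_le_mul_of_nonneg_right h3 hδ0.le
    linarith
  refine ⟨2 * m + 1, 0, fun n k _ hk G hG => ⟨fun j => TU1_gam hG j, ?_⟩⟩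
  refine le_trans ?_ (TU1_core h1 h2 hG q K m hq1 (by omega) hk)
  have hn0 : (0 : ℝ) ≤ n := Nat.cast_nonneg _
  have d0 : 0 ≤ 1 - δ := by linarith
  have e1 : 1 - δ ≤ 1 - 1 / ((K : ℝ) + 1) := by linarith
  have e2 : 1 - δ ≤ 1 - 1 / (q : ℝ) := by linarith
  have e3 : 1 - δ ≤ 1 - (1 - 1 / (q : ℝ)) ^ m := by linarith
  have e4 : 1 - δ ≤ 1 - 2 * (K : ℝ) * (K + 1) / m := by linarith
  have p1 : (1 - δ) * (1 - δ) ≤ (1 - 1 / (q : ℝ)) * (1 - (1 - 1 / (q : ℝ)) ^ m) :=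
    mul_le_mul e2 e3 d0 hx0
  have p2 : (1 - δ) * n ≤ (1 - 2 * (K : ℝ) * (K + 1) / m) * n := mul_le_mul_of_nonneg_right e4 hn0
  have p3 : (1 - δ) * (1 - δ) * ((1 - δ) * n) ≤ (1 - 1 / (q : ℝ)) * (1 - (1 - 1 / (q : ℝ)) ^ m) *
      ((1 - 2 * (K : ℝ) * (K + 1) / m) * n) :=
    mul_le_mul p1 p2 (mul_nonneg d0 hn0) (le_trans (mul_nonneg d0 d0) p1)
  have p4 : (1 - δ) * ((1 - δ) * (1 - δ) * ((1 - δ) * n)) ≤ (1 - 1 / ((K : ℝ) + 1)) *
      ((1 - 1 / (q : ℝ)) * (1 - (1 - 1 / (q : ℝ)) ^ m) * ((1 - 2 * (K : ℝ) * (K + 1) / m) * n)) :=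
    mul_le_mul e1 p3 (mul_nonneg (mul_nonneg d0 d0) (mul_nonneg d0 hn0)) (le_trans d0 e1)
  refine le_trans ?_ p4
  have p5 : 1 - ε ≤ (1 - δ) ^ 4 := by
    have h3 := one_add_mul_le_pow (a := -δ) (by linarith) 4
    have h4 : (1 + -δ) ^ 4 = (1 - δ) ^ 4 := by ring
    rw [h4] at h3
    push_cast at h3
    linarith
  calc (1 - ε) * (n : ℝ) ≤ (1 - δ) ^ 4 * n := mul_le_mul_of_nonneg_right p5 hn0
    _ = (1 - δ) * ((1 - δ) * (1 - δ) * ((1 - δ) * n)) := by ring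

end Pool.Agent.Work.MP_1ce445_top
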