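import Pool.Agent.Work.MP_1ce445_top.Interface

/-! # Block TU2: the upper bound -/

namespace Pool.Agent.Work.MP_1ce445_top

open Finset Pool.Agent.Work.MP_1ce445_co_56 Pool.Agent.Work.MP_1ce445_lin

theorem TU2_exp {ε δ : ℝ} (h0 : 0 < δ) (h1 : δ ≤ 1 / 2) (h2 : 2 * δ ≤ ε) :
    Real.exp (-(1 - δ)) ≤ Real.exp (-1) + ε := by
  have h3 : Real.exp (-(1 - δ)) = Real.exp (-1) * Real.exp δ := by
    rw [← Real.exp_add]
    congr 1
    ring
  have h4 : Real.exp δ ≤ 1 + 2 * δ := by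
    have h5 := Real.add_one_le_exp (-δ)
    have h6 : Real.exp δ * Real.exp (-δ) = 1 := by
      rw [← Real.exp_add]
      simp
    have h7 := Real.exp_pos δ
    have h8 : Real.exp δ * (1 - δ) ≤ 1 := by
      nlinarith
    nlinarith
  have h9 : Real.exp (-1) ≤ 1 := Real.exp_le_one_iff.2 (by norm_num)
  have h10 := Real.exp_pos (-1 : ℝ)
  rw [h3]
  nlinarith

theorem stmt_TU2 (h1 : Stmt_TU1) : Stmt_TU2 := by
  intro ε hε
  have hm : 0 < min ε 1 := lt_min hε one_pos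
  obtain ⟨R, n0, h2⟩ := h1 (min ε 1 / 2) (by linarith)
  have hδ1 : min ε 1 / 2 ≤ 1 / 2 := by linarith [min_le_right ε 1]
  have hδ2 : 2 * (min ε 1 / 2) ≤ ε := by linarith [min_le_left ε 1]
  have hδ0 : 0 < min ε 1 / 2 := by linarith
  have hexp := TU2_exp hδ0 hδ1 hδ2
  generalize min ε 1 / 2 = δ at h2 hδ1 hδ2 hδ0 hexp
  refine ⟨R, max n0 2, ?_⟩
  intro n k hn hk
  have hn0 : n0 ≤ n := le_trans (le_max_left _ _) hn
  have hn2 : 2 ≤ n := le_trans (le_max_right _ _) hn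
  have hNN : 0 < NN n := by
    unfold NN
    omega
  have hNNn : NN n ≤ n := by
    unfold NN
    omega
  have hNR : (0 : ℝ) < NN n := by exact_mod_cast hNN
  have hNnR : (NN n : ℝ) ≤ n := by exact_mod_cast hNNn
  rcases P_attained n k with h0 | ⟨G, hG, hP⟩
  · rw [h0]
    simp only [Nat.cast_zero]
    positivity
  rw [hP]
  push_cast
  obtain ⟨h3, h4⟩ := h2 n k hn0 hk G hG
  have h5 : ∏ j, (gammaT (G j) : ℝ) ≤
      ∏ j, ((NN n : ℝ) * Real.exp (-(((NN n : ℝ) - gammaT (G j)) / NN n))) := by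
    refine Finset.prod_le_prod (fun j _ => Nat.cast_nonneg _) fun j _ => ?_
    have h6 := Real.add_one_le_exp (-(((NN n : ℝ) - gammaT (G j)) / NN n))
    calc (gammaT (G j) : ℝ) = NN n * (-(((NN n : ℝ) - gammaT (G j)) / NN n) + 1) := by
          field_simp
          ring
      _ ≤ _ := mul_le_mul_of_nonneg_left h6 hNR.le
  have h7 : ∏ j, ((NN n : ℝ) * Real.exp (-(((NN n : ℝ) - gammaT (G j)) / NN n))) =
      (NN n : ℝ) ^ k * Real.exp (-((∑ j, ((NN n : ℝ) - gammaT (G j))) / NN n)) := by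
    rw [Finset.prod_mul_distrib, Finset.prod_const, Finset.card_univ, Fintype.card_fin,
      ← Real.exp_sum, Finset.sum_neg_distrib, Finset.sum_div]
  have h8 : Real.exp (-((∑ j, ((NN n : ℝ) - gammaT (G j))) / NN n)) ≤ Real.exp (-(1 - δ)) := by
    apply Real.exp_le_exp.2
    apply neg_le_neg
    rw [le_div_iff₀ hNR]
    refine le_trans ?_ h4
    exact mul_le_mul_of_nonneg_left hNnR (by linarith)
  calc ∏ j, (gammaT (G j) : ℝ) ≤
      (NN n : ℝ) ^ k * Real.exp (-((∑ j, ((NN n : ℝ) - gammaT (G j))) / NN n)) := by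
        rw [← h7]
        exact h5
    _ ≤ (NN n : ℝ) ^ k * (Real.exp (-1) + ε) :=
        mul_le_mul_of_nonneg_left (h8.trans hexp) (by positivity)
    _ = (Real.exp (-1) + ε) * (NN n : ℝ) ^ k := by ring

end Pool.Agent.Work.MP_1ce445_top
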