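import Pool.Agent.Work.MP_1ce445_lin.End
import Pool.Agent.Work.MP_1ce445_top.RAN
import Pool.Agent.Work.MP_1ce445_top.SUB
import Pool.Agent.Work.MP_1ce445_top.TU1
import Pool.Agent.Work.MP_1ce445_top.TU2
import Pool.Agent.Work.MP_1ce445_top.TAE
import Pool.Agent.Work.MP_1ce445_top.TAO
import Pool.Agent.Work.MP_1ce445_top.TCL
import Pool.Agent.Work.MP_1ce445_top.TDA
import Pool.Agent.Work.MP_1ce445_top.TLW

/-!
The theorem on the range `3/10 ≤ k/n < 1`, up to `n - k → ∞`: all blocks together.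
-/

namespace Pool.Agent.Work.MP_1ce445_top

open Finset Pool.Agent.Work.MP_1ce445_co_56 Pool.Agent.Work.MP_1ce445_lin

theorem hTU2 : Stmt_TU2 := stmt_TU2 (stmt_TU1 stmt_RAN stmt_SUB)

theorem hTLW : Stmt_TLW := stmt_TLW stmt_TAE stmt_TAO (stmt_TDA (stmt_TCL stmt_KOE))

/-- `(1 - 1/m)^m` is at most `e⁻¹`. -/
theorem pow_le_e (m : ℕ) (hm : 1 ≤ m) : (1 - 1 / (m : ℝ)) ^ m ≤ Real.exp (-1) := by
  have hm0 : (1 : ℝ) ≤ m := by exact_mod_cast hm
  have h1 : 0 ≤ 1 - 1 / (m : ℝ) := by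
    have : 1 / (m : ℝ) ≤ 1 := by
      rw [div_le_one (by linarith)]
      exact hm0
    linarith
  have h2 : 1 - 1 / (m : ℝ) ≤ Real.exp (-(1 / (m : ℝ))) := by
    have := Real.add_one_le_exp (-(1 / (m : ℝ)))
    linarith
  calc (1 - 1 / (m : ℝ)) ^ m ≤ Real.exp (-(1 / (m : ℝ))) ^ m := pow_le_pow_left₀ h1 h2 m
    _ = Real.exp (-1) := by
        rw [← Real.exp_nat_mul]
        congr 1
        field_simp

/-- `(1 - 1/m)^m` is at least `e⁻¹ - ε` for large `m`. -/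
theorem e_le_pow (ε : ℝ) (hε : 0 < ε) :
    ∃ M : ℕ, 2 ≤ M ∧ ∀ m : ℕ, M ≤ m → Real.exp (-1) - ε ≤ (1 - 1 / (m : ℝ)) ^ m := by
  have h1 := Real.tendsto_one_add_div_pow_exp (-1)
  have h2 : ∀ᶠ m : ℕ in Filter.atTop, Real.exp (-1) - ε < (1 + -1 / (m : ℝ)) ^ m :=
    h1.eventually_const_lt (by linarith)
  obtain ⟨M, hM⟩ := Filter.eventually_atTop.1 h2
  refine ⟨max M 2, le_max_right _ _, fun m hm => ?_⟩
  have h3 : (1 + -1 / (m : ℝ)) = 1 - 1 / (m : ℝ) := by ring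
  have h4 := hM m ((le_max_left _ _).trans hm)
  rw [h3] at h4
  exact h4.le

/-- The theorem. -/
theorem top_final (ε : ℝ) (hε : 0 < ε) :
    ∃ R n0 : ℕ, ∀ n k : ℕ, n0 ≤ n → 3 / 10 * (n : ℝ) ≤ k → k + R ≤ n →
      (P n k : ℝ) ≤ (up ((k : ℝ) / n) + ε) * ((2 * (n / 2) : ℕ) : ℝ) ^ k ∧
      up ((k : ℝ) / n) ≤ 32 / 27 * low ((k : ℝ) / n) ∧
      ((k : ℝ) ≤ n / 2 ∨
          (1 - 1 / (level ((k : ℝ) / n) : ℝ)) * n + 4 * level ((k : ℝ) / n) ≤ k ∨
          R ≤ level ((k : ℝ) / n) →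
        (low ((k : ℝ) / n) - ε) * ((2 * (n / 2) : ℕ) : ℝ) ^ k ≤ (P n k : ℝ)) := by
  obtain ⟨R1, n1, h1⟩ := hTU2 (ε / 2) (by linarith)
  obtain ⟨R2, n2, hR2, h2⟩ := hTLW ε hε
  obtain ⟨M0, hM0, h3⟩ := e_le_pow (ε / 2) (by linarith)
  obtain ⟨M, hMdef⟩ : ∃ M, M = max M0 R2 := ⟨_, rfl⟩
  have hM2 : 2 ≤ M := by omega
  have hM0' : M0 ≤ M := by omega
  have hMR2 : R2 ≤ M := by omega
  obtain ⟨n3, h4⟩ := final hUP hLOW hUP2 hLOW2 (1 / ((M : ℝ) + 1)) ε (by positivity) hε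
  refine ⟨max (max R1 (M + 1)) 2, max (max n1 n2) (max n3 1), fun n k hn hk hkR => ?_⟩
  have hn1 : n1 ≤ n := by omega
  have hn2 : n2 ≤ n := by omega
  have hn3 : n3 ≤ n := by omega
  have hnp : 1 ≤ n := by omega
  have hkR1 : k + R1 ≤ n := by omega
  have hk2 : k + 2 ≤ n := by omega
  have hn0 : (0 : ℝ) < n := by exact_mod_cast hnp
  rcases le_or_gt (k : ℝ) ((1 - 1 / ((M : ℝ) + 1)) * n) with hc | hc
  · -- small levels
    obtain ⟨a1, a2, a3⟩ := h4 n k hn3 hk hc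
    refine ⟨a1, a2, ?_⟩
    rintro (h | h | h)
    · exact a3 (Or.inl h)
    · exact a3 (Or.inr h)
    · -- the level is too small
      exfalso
      have hcM : (k : ℝ) / n ≤ 1 - 1 / ((M : ℝ) + 1) := by
        rw [div_le_iff₀ hn0]; exact hc
      have hlev : M + 1 ≤ level ((k : ℝ) / n) := by omega
      have hd : (1 : ℝ) / (1 - (k : ℝ) / n) ≤ M + 1 := by
        have h5 : 1 / ((M : ℝ) + 1) ≤ 1 - (k : ℝ) / n := by linarith
        have h6 : (0 : ℝ) < 1 / ((M : ℝ) + 1) := by positivity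
        calc (1 : ℝ) / (1 - (k : ℝ) / n) ≤ 1 / (1 / ((M : ℝ) + 1)) :=
              one_div_le_one_div_of_le h6 h5
          _ = M + 1 := by field_simp
      have h7 : ⌈(1 : ℝ) / (1 - (k : ℝ) / n)⌉₊ ≤ M + 1 := by
        rw [Nat.ceil_le]
        push_cast
        exact hd
      unfold level at hlev
      omega
  · -- large levels
    have hcc : 1 - 1 / ((M : ℝ) + 1) < (k : ℝ) / n := by
      rw [lt_div_iff₀ hn0]; exact hc
    have hM0r : (2 : ℝ) ≤ M := by exact_mod_cast hM2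
    have hhalf : 1 / 2 < (k : ℝ) / n := by
      have : 1 / ((M : ℝ) + 1) ≤ 1 / 2 := one_div_le_one_div_of_le (by norm_num) (by linarith)
      linarith
    have hlt : (k : ℝ) / n < 1 := by
      rw [div_lt_one hn0]
      have : k < n := by omega
      exact_mod_cast this
    obtain ⟨hm2, hlo, hhi⟩ := level_spec _ hhalf hlt
    set m : ℕ := level ((k : ℝ) / n) with hm
    have hm0 : (2 : ℝ) ≤ m := by exact_mod_cast hm2
    have hMm : M ≤ m := by
      have h5 : 1 / ((m : ℝ) + 1) < 1 / ((M : ℝ) + 1) := by linarith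
      have h6 : (M : ℝ) + 1 < (m : ℝ) + 1 :=
        lt_of_one_div_lt_one_div (by positivity) h5
      have h7 : (M : ℝ) < m := by linarith
      have h8 : M < m := by exact_mod_cast h7
      exact h8.le
    have hnot : ¬ (k : ℝ) / n ≤ 1 / 2 := not_le.2 hhalf
    have e1 : low ((k : ℝ) / n) = (1 - 1 / (m : ℝ)) ^ m := by
      unfold low
      rw [if_neg hnot]
    have e2 : up ((k : ℝ) / n) =
        max ((1 - 1 / (m : ℝ)) ^ m) (((k : ℝ) / n) ^ (m + 1)) := by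
      unfold up
      rw [if_neg hnot, e1]
    have hNN : NN n = 2 * (n / 2) := rfl
    have hb1 := h1 n k hn1 hkR1
    have hlow1 := h3 m (hM0'.trans hMm)
    have hup1 : (1 - 1 / (m : ℝ)) ^ m ≤ up ((k : ℝ) / n) := by
      rw [e2]; exact le_max_left _ _
    have hpw : (0 : ℝ) ≤ ((2 * (n / 2) : ℕ) : ℝ) ^ k := by positivity
    refine ⟨?_, ?_, fun _ => ?_⟩
    · rw [hNN] at hb1
      refine hb1.trans ?_
      exact mul_le_mul_of_nonneg_right (by linarith) hpw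
    · rw [e2, e1]
      have hb : (0 : ℝ) ≤ 1 - 1 / (m : ℝ) := by
        have : 1 / (m : ℝ) ≤ 1 / 2 := one_div_le_one_div_of_le (by norm_num) hm0
        linarith
      have hA : (0 : ℝ) ≤ (1 - 1 / (m : ℝ)) ^ m := pow_nonneg hb m
      apply max_le
      · linarith
      · refine le_trans ?_ (ratio_le m hm2)
        exact pow_le_pow_left₀ (by positivity) hhi _
    · have hR2' : (1 : ℝ) ≤ R2 := by exact_mod_cast hR2
      have hR2M : (R2 : ℝ) ≤ M := by exact_mod_cast hMR2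
      have hge : (1 - 1 / (R2 : ℝ)) * n ≤ k := by
        have h5 : 1 / ((M : ℝ) + 1) ≤ 1 / (R2 : ℝ) :=
          one_div_le_one_div_of_le (by linarith) (by linarith)
        have h6 : (1 - 1 / (R2 : ℝ)) * n ≤ (1 - 1 / ((M : ℝ) + 1)) * n :=
          mul_le_mul_of_nonneg_right (by linarith) hn0.le
        linarith
      have hb2 := h2 n k hn2 hge hk2
      rw [hNN] at hb2
      refine le_trans ?_ hb2
      have h5 := pow_le_e m (by omega)
      rw [e1]
      exact mul_le_mul_of_nonneg_right (by linarith) hpw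

end Pool.Agent.Work.MP_1ce445_top
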