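import Pool.Agent.Work.MP_1ce445_lin.Interface2

/-!
THEOREM TOP for MP_1ce445_co: `P n k = (e⁻¹ + o(1)) (NN n)^k` if `n - k → ∞` and `k/n → 1`. Definitions and
statements of the blocks, with complete proofs in the docstrings.

One file `Pool/Agent/Work/MP_1ce445_top/<ID>.lean` per block, `import Pool.Agent.Work.MP_1ce445_top.Interface`,
same `open` lines, theorem `stmt_<ID>` with exactly the statements of the column `uses` as hypotheses, in this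
order; auxiliary lemmas with the name of the block in front (`RAN_aux`).
-/

namespace Pool.Agent.Work.MP_1ce445_top

open Finset Pool.Agent.Work.MP_1ce445_co_56 Pool.Agent.Work.MP_1ce445_lin

/-! ### Upper bound -/

/-- RAN (120 lines): `gammaT G ≤ ∑ v, (p + (1 - p)^(deg v))` for `p = 1/q`. Average over all functions `f : V → Fin q`
(`n = |V|`): let `Z_f = {w | f w = 0}`. `gammaT_le_add` (Basic.lean): `gammaT G ≤ |Z_f| + #{v | no neighbour in Z_f}`. Sum over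
`f`: `#{f | f w = 0} = q^(n-1)`, and `#{f | f w ≠ 0 for all neighbours w of v} = (q-1)^(deg v) q^(n - deg v)`
(`Fintype.card_piFinset`). Divide by `q^n`. -/
def Stmt_RAN : Prop :=
  ∀ {V : Type} [Fintype V] [DecidableEq V] (G : SimpleGraph V) (q : ℕ), 1 ≤ q →
    (∀ v, ∃ w, G.Adj v w) →
    (gammaT G : ℝ) ≤ ∑ v, (1 / (q : ℝ) + (1 - 1 / (q : ℝ)) ^ (dg G v))

/-- SUB (20 lines): induction. -/
def Stmt_SUB : Prop :=
  ∀ {ι : Type} (s : Finset ι) (e : ι → ℕ) (x : ℝ), 0 ≤ x → x ≤ 1 →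
    1 - x ^ (∑ j ∈ s, e j) ≤ ∑ j ∈ s, (1 - x ^ (e j))

/-- TU1 (250 lines; uses RAN SUB). Let `loss_j = n - gammaT (G j)`, `p = 1/q`, `x = 1 - p`. RAN: `loss_j ≥ ∑ v, x (1 -
x^(deg_j v - 1))` (because `1 - p - x^d = x (1 - x^(d-1))`). Every vertex has `∑ j, (deg_j v - 1) = n - 1 - k ≥ R - 1`
(`sum_degree`). Let `K : ℕ`, `J = {j | loss_j > K}`. For `j ∉ J`: `∑ v, (deg_j v - 1) ≤ 2 K (K + 1)` (`excess`), so
`∑ v ∑_{j ∉ J} (deg_j v - 1) ≤ 2 K (K + 1) n`, and at most `4 K (K + 1) n/(R - 1)` vertices have more than half of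
their excess in the factors `j ∉ J`. For the other vertices SUB gives
`∑_{j ∈ J} (1 - x^(deg_j v - 1)) ≥ 1 - x^e`, `e ≥ (R - 1)/2`. So
`∑_{j ∈ J} loss_j ≥ (1 - p)(1 - x^((R-1)/2))(1 - 4 K (K + 1)/(R - 1)) n`. For `j ∈ J`:
`NN n - gammaT ≥ loss_j - 1 ≥ (1 - 1/(K + 1)) loss_j`; for `j ∉ J`: `NN n - gammaT ≥ 0` (`gammaT_add_one_le` of `Odd.lean`
for odd `n`, `gammaT_le_univ` for even `n`; cf. the last clause of `Stmt_CORE`). Choose `q`, `K`, then `R`. -/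
def Stmt_TU1 : Prop :=
  ∀ ε : ℝ, 0 < ε → ∃ R n0 : ℕ, ∀ n k : ℕ, n0 ≤ n → k + R ≤ n →
    ∀ G : Fin k → SimpleGraph (Fin n), IsFactorization G →
      (∀ j, gammaT (G j) ≤ NN n) ∧
      (1 - ε) * (n : ℝ) ≤ ∑ j, ((NN n : ℝ) - gammaT (G j))

/-- TU2 (60 lines; uses TU1). `P_attained`; `∏ gammaT = (NN n)^k ∏ (1 - l_j/NN n) ≤ (NN n)^k exp (-∑ l_j/NN n)` and
`∑ l_j ≥ (1 - ε') n ≥ (1 - ε') NN n`; `exp (-(1 - ε')) ≤ exp (-1) + ε`. -/
def Stmt_TU2 : Prop :=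
  ∀ ε : ℝ, 0 < ε → ∃ R n0 : ℕ, ∀ n k : ℕ, n0 ≤ n → k + R ≤ n →
    (P n k : ℝ) ≤ (Real.exp (-1) + ε) * (NN n : ℝ) ^ k

/-! ### Lower bound -/

/-- Perfect matchings `μ i` (`i ∈ I`), the other pairs `W`, which are inside the clusters `cl`, and a big factor `bg t` for
each cluster `t`. -/
structure Td {V I : Type} {m : ℕ} (μ : I → V → V) (W : V → V → Prop) (cl : V → Fin m)
    (bg : Fin m → I) : Prop where
  inv : ∀ i v, μ i (μ i v) = v
  ne : ∀ i v, μ i v ≠ v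
  dis : ∀ i j v, μ i v = μ j v → i = j
  w_symm : ∀ v w, W v w → W w v
  w_irr : ∀ v, ¬ W v v
  w_mu : ∀ v w i, W v w → μ i v ≠ w
  cov : ∀ v w, v ≠ w → W v w ∨ ∃ i, μ i v = w
  w_cl : ∀ v w, W v w → cl v = cl w
  bg_inj : Function.Injective bg

/-- Repair data for the deletion of the vertex `y0`: every partner `v` of `y0` gets the pair `v, ρ v`. -/
structure Rp {V I : Type} (μ : I → V → V) (W : V → V → Prop) (y0 : V) (ρ : V → V) : Prop where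
  w : ∀ i, W (μ i y0) (ρ (μ i y0))
  ne : ∀ i, ρ (μ i y0) ≠ y0
  dis : ∀ i j, i ≠ j → ¬ (ρ (μ i y0) = μ j y0 ∧ ρ (μ j y0) = μ i y0)

/-- TAE (120 lines). Factor `i ∈ I`: `Adj v w ↔ μ i v = w ∨ (W v w ∧ bg (cl v) = i)`. `IsFactorization.of_adj`, `le_P`.
If `i` is not in the range of `bg` then `gammaT ≥ |V|` (`card_le_gammaT` with `f = id`, `g = μ i`); if `i = bg t` then
`gammaT ≥ #{v | cl v ≠ t} ≥ |V| - s` (`f` the inclusion of these vertices). -/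
def Stmt_TAE : Prop :=
  ∀ {V I : Type} [Fintype V] [Fintype I] {m : ℕ} (μ : I → V → V) (W : V → V → Prop)
    (cl : V → Fin m) (bg : Fin m → I) (s : ℕ), Td μ W cl bg →
    (∀ t, (univ.filter (fun v => cl v = t)).card ≤ s) →
    Fintype.card V ^ (Fintype.card I - m) * (Fintype.card V - s) ^ m ≤
      P (Fintype.card V) (Fintype.card I)

/-- TAO (220 lines). Vertices `{v // v ≠ y0}`. Let `x i = μ i y0`. The repair pairs `{x i, ρ (x i)}` are in `W` and different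
for different `i` (`dis`; `x` is injective by `Td.dis`). Factor `i`: `Adj v w` iff `μ i v = w`, or `{v, w}` is the repair pair
of `i`, or (`W v w`, `{v, w}` is not a repair pair, `bg (cl v) = i`). If `i` is not in the range of `bg`: `gammaT ≥ |V| - 2`
by `GAM_sub_one` (in `MP_1ce445_lin/GAM.lean`) with `x0 = ρ (x i)`, `v = x i`. If `i = bg t`: the vertices `v` with
`cl v ≠ t`, `v ≠ x i`, `v ≠ ρ (x i)` have only the neighbour `μ i v`: `gammaT ≥ |V| - 1 - s - 2` (`card_le_gammaT`).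
`minDeg`: `x i` is adjacent to `ρ (x i)`, the other vertices `v` to `μ i v ≠ y0`. -/
def Stmt_TAO : Prop :=
  ∀ {V I : Type} [Fintype V] [Fintype I] {m : ℕ} (μ : I → V → V) (W : V → V → Prop)
    (cl : V → Fin m) (bg : Fin m → I) (s : ℕ) (y0 : V) (ρ : V → V), Td μ W cl bg → Rp μ W y0 ρ →
    (∀ t, (univ.filter (fun v => cl v = t)).card ≤ s) →
    (Fintype.card V - 2) ^ (Fintype.card I - m) * (Fintype.card V - (s + 3)) ^ m ≤
      P (Fintype.card V - 1) (Fintype.card I)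

/-- TCL (180 lines; uses KOE). Clusters and cross matchings. `L = h / m ≥ e + 2`; `cl x = min (x.val / L) (m - 1)`; the
clusters are intervals of length `L`, the last one of length `h - (m - 1) L ≤ L + m`. `F t` shifts every cluster
cyclically by `t + 1` (`1 ≤ t + 1 ≤ e < L`). Then KOE with `k = h - 1 - e` for `c x y = 0` if `x = y` or `y = F t x` for
some `t`, and `c x y = 1` otherwise (row and column sums `h - 1 - e`). -/
def Stmt_TCL : Prop :=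
  ∀ (h m e : ℕ) [NeZero h], 1 ≤ m → m * (e + 2) ≤ h →
    ∃ (cl : ZMod h → Fin m) (F : Fin e → (ZMod h ≃ ZMod h)) (M : Fin (h - 1 - e) → (ZMod h ≃ ZMod h)),
      (∀ t x, cl (F t x) = cl x) ∧ (∀ t x, F t x ≠ x) ∧ (∀ i x, M i x ≠ x) ∧
      (∀ t t' x, F t x = F t' x → t = t') ∧ (∀ i i' x, M i x = M i' x → i = i') ∧
      (∀ t i x, F t x ≠ M i x) ∧
      (∀ x y, x ≠ y → (∃ t, F t x = y) ∨ ∃ i, M i x = y) ∧
      ∀ t, (univ.filter (fun x => cl x = t)).card ≤ h / m + m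

/-- TDA (200 lines; uses TCL). `V = ZMod h ⊕ ZMod h`, `I = ZMod h ⊕ Fin (h - 1 - e)`. `μ (inl c) (inl x) = inr x` if
`x + x = c`, otherwise `inl (c - x)`; `μ (inl c) (inr x) = inl x` if `x + x = c`, otherwise `inr (c - x)`;
`μ (inr i) (inl x) = inr (M i x)`, `μ (inr i) (inr y) = inl ((M i).symm y)`. `W (inl x) (inr y) ↔ ∃ t, F t x = y` (and
symmetric; no other pairs). `cl` on both summands. `bg t = inl (t.val : ZMod h)` (`m ≤ h`, injective).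
`s = 2 (h / m + m)`. For `2 ≤ e`: `y0 = inr 0`, `ρ (inl x) = inr (F 0 x)`, `ρ (inr y) = inl ((F 1).symm y)` (`F 0`, `F 1` the
first two). `ρ (μ i y0) ≠ y0`: if `μ i y0 = inl x` and `F 0 x = 0` then the pair `x, 0` is in `W` and in `μ i`. `dis`:
`inl x, inr y` with `F 0 x = y` and `F 1 x = y` is impossible. -/
def Stmt_TDA : Prop :=
  ∀ (h m e : ℕ) [NeZero h], 1 ≤ m → m * (e + 2) ≤ h →
    ∃ (μ : ZMod h ⊕ Fin (h - 1 - e) → ZMod h ⊕ ZMod h → ZMod h ⊕ ZMod h)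
      (W : ZMod h ⊕ ZMod h → ZMod h ⊕ ZMod h → Prop) (cl : ZMod h ⊕ ZMod h → Fin m)
      (bg : Fin m → ZMod h ⊕ Fin (h - 1 - e)),
      Td μ W cl bg ∧ (∀ t, (univ.filter (fun v => cl v = t)).card ≤ 2 * (h / m + m)) ∧
      (2 ≤ e → ∃ (y0 : ZMod h ⊕ ZMod h) (ρ : ZMod h ⊕ ZMod h → ZMod h ⊕ ZMod h), Rp μ W y0 ρ)

/-- TLW (150 lines; uses TAE TAO TDA). Choose `m` with `(1 - 1/m)^m ≥ e⁻¹ - ε/2`, `R = 8 m`. Even `n = 2 h`:
`e = n - 1 - k ≤ n/R`, `m (e + 2) ≤ h` for large `n`; TDA, TAE: `|V| = n`, `|I| = 2 h - 1 - e = k`,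
`P n k ≥ n^(k-m) (n - 2 (h/m + m))^m`, and `2 (h/m + m) ≤ n/m + 2 m`. Odd `n = 2 h - 1`: `e = n - k ≥ 2`, `|V| = n + 1`,
`|I| = 2 h - 1 - e = k`, TAO: `P n k ≥ (n - 1)^(k-m) (n + 1 - (2 (h/m + m) + 3))^m`. -/
def Stmt_TLW : Prop :=
  ∀ ε : ℝ, 0 < ε → ∃ R n0 : ℕ, 1 ≤ R ∧ ∀ n k : ℕ, n0 ≤ n → (1 - 1 / (R : ℝ)) * n ≤ k →
    k + 2 ≤ n → (Real.exp (-1) - ε) * (NN n : ℝ) ^ k ≤ (P n k : ℝ)

end Pool.Agent.Work.MP_1ce445_top
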